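import Pool.Agent.Lib.MP_52ca01_co.Ham

/-!
The linking lemma: a short path through a prescribed set.
-/

set_option autoImplicit false
set_option linter.unusedSectionVars false

namespace Pool.Agent.MP_52ca01_co

open Finset

variable {α β : Type*} [DecidableEq α] [DecidableEq β]
variable {N : β → Finset α} {A Z : Finset α} {B : Finset β} {d : ℕ}

theorem link_step (hB : ∀ y, (N y).Nonempty → y ∈ B ∧ N y ⊆ A ∧ d ≤ (N y).card)
    (hd : A.card + 1 ≤ 2 * d) (hZ : Z ⊆ A) {a b z : α} {xs : List α} {ys : List β}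
    (hdeg : ∀ x ∈ A, xs.length < (B.filter (fun y => x ∈ N y)).card)
    (h : Pth (Inc N) a b xs ys) (hA : ∀ x ∈ xs, x ∈ A) (ha : a ∈ Z) (hb : b ∈ Z)
    (hz : z ∈ Z) (hzx : z ∉ xs) :
    ∃ a' b' xs' ys', Pth (Inc N) a' b' xs' ys' ∧ (∀ x ∈ xs', x ∈ A) ∧ a' ∈ Z ∧ b' ∈ Z ∧
      (∀ x ∈ xs, x ∈ xs') ∧ z ∈ xs' ∧ xs'.length ≤ xs.length + 2 := by
  have hlen := h.length_eq
  obtain ⟨w, -, haw, hwn⟩ := exists_fresh (R := fun x y => x ∈ N y) (B := B) (x := a) (ys := ys)
    (by have := hdeg a (hZ ha); omega)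
  obtain ⟨w', -, hzw', hwn'⟩ := exists_fresh (R := fun x y => x ∈ N y) (B := B) (x := z)
    (ys := w :: ys) (by have := hdeg z (hZ hz); simp only [List.length_cons]; omega)
  obtain ⟨hww', hwn'⟩ : w' ≠ w ∧ w' ∉ ys := by simpa using hwn'
  by_cases c1 : z ∈ N w
  · refine ⟨z, b, _, _, h.cons hzx hwn c1 haw, ?_, hz, hb, ?_, by simp, by simp⟩
    · intro x hx
      rcases List.mem_cons.1 hx with rfl | hx
      · exact hZ hz
      · exact hA x hx
    · intro x hx; exact List.mem_cons_of_mem _ hx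
  by_cases c2 : a ∈ N w'
  · refine ⟨z, b, _, _, h.cons hzx hwn' hzw' c2, ?_, hz, hb, ?_, by simp, by simp⟩
    · intro x hx
      rcases List.mem_cons.1 hx with rfl | hx
      · exact hZ hz
      · exact hA x hx
    · intro x hx; exact List.mem_cons_of_mem _ hx
  by_cases c3 : b ∈ N w'
  · refine ⟨z, a, _, _, h.reverse.cons (fun hh => hzx (List.mem_reverse.1 hh))
      (fun hh => hwn' (List.mem_reverse.1 hh)) hzw' c3, ?_, hz, ha, ?_, by simp, by simp⟩
    · intro x hx
      rcases List.mem_cons.1 hx with rfl | hx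
      · exact hZ hz
      · exact hA x (List.mem_reverse.1 hx)
    · intro x hx; exact List.mem_cons_of_mem _ (List.mem_reverse.2 hx)
  by_cases c4 : ∃ x, x ∈ N w ∧ x ∈ N w' ∧ x ∉ xs
  · obtain ⟨x, hx1, hx2, hx3⟩ := c4
    have hxz : z ≠ x := by rintro rfl; exact c1 hx1
    refine ⟨z, b, _, _, (h.cons hx3 hwn hx1 haw).cons (y := w') (x := z) ?_ ?_ hzw' hx2, ?_, hz,
      hb, ?_, by simp, by simp⟩
    · simp only [List.mem_cons, not_or]; exact ⟨hxz, hzx⟩
    · simp only [List.mem_cons, not_or]; exact ⟨hww', hwn'⟩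
    · intro t ht
      simp only [List.mem_cons] at ht
      rcases ht with rfl | rfl | ht
      · exact hZ hz
      · exact (hB w ⟨t, hx1⟩).2.1 hx1
      · exact hA t ht
    · intro t ht; exact List.mem_cons_of_mem _ (List.mem_cons_of_mem _ ht)
  · push Not at c4
    obtain ⟨-, wA, wc⟩ := hB w ⟨a, haw⟩
    obtain ⟨-, wA', wc'⟩ := hB w' ⟨z, hzw'⟩
    have hS := Finset.card_filter_add_card_filter_not (s := N w) (fun x => x ∈ xs)
    have hT := Finset.card_filter_add_card_filter_not (s := N w') (fun x => x ∈ xs)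
    have hq : xs.toFinset.card = xs.length := List.toFinset_card_of_nodup h.nx
    have hxsA : xs.toFinset ⊆ A := fun t ht => hA t (List.mem_toFinset.1 ht)
    have hdisj : Disjoint ((N w).filter (fun x => ¬ x ∈ xs)) ((N w').filter (fun x => ¬ x ∈ xs)) := by
      rw [Finset.disjoint_left]
      intro t ht ht'
      rw [Finset.mem_filter] at ht ht'
      exact ht.2 (c4 t ht.1 ht'.1)
    have h1 := Finset.card_union_of_disjoint hdisj
    have h2 : (N w).filter (fun x => ¬ x ∈ xs) ∪ (N w').filter (fun x => ¬ x ∈ xs) ⊆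
        A \ xs.toFinset := by
      intro t ht
      rw [Finset.mem_union, Finset.mem_filter, Finset.mem_filter] at ht
      rw [Finset.mem_sdiff, List.mem_toFinset]
      rcases ht with ht | ht
      · exact ⟨wA ht.1, ht.2⟩
      · exact ⟨wA' ht.1, ht.2⟩
    have h3 := Finset.card_le_card h2
    rw [Finset.card_sdiff_of_subset hxsA] at h3
    have h4 := Finset.card_le_card hxsA
    have haS : a ∈ (N w).filter (fun x => x ∈ xs) :=
      Finset.mem_filter.2 ⟨haw, h.lk.head_mem⟩
    have e1 := Finset.card_erase_add_one haS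
    have e2 : ((N w').filter (fun x => x ∈ xs)).erase b = (N w').filter (fun x => x ∈ xs) :=
      Finset.erase_eq_of_notMem (fun hh => c3 (Finset.mem_filter.1 hh).1)
    obtain ⟨a1, b1, w0, xs1, xs2, ys1, ys2, e3, e4, g1, g2, g3, g4, g5, g6⟩ :=
      h.lk.crossing h.nx ((N w).filter (fun x => x ∈ xs)) ((N w').filter (fun x => x ∈ xs))
      (fun t ht => (Finset.mem_filter.1 ht).2) (fun t ht => (Finset.mem_filter.1 ht).2)
      (by rw [e2]; omega)
    have hny := h.ny
    have hnx := h.nx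
    subst e3 e4
    simp only [List.mem_append, List.mem_cons, not_or] at hwn hwn' hzx
    have hP := Pth.rotL hnx hny g1 g4 (y := w) (by
      simp only [List.mem_append, not_or]; exact ⟨hwn.1, hwn.2.2⟩) haw (Finset.mem_filter.1 g6).1
    refine ⟨z, b, _, _, hP.cons (y := w') (x := z) ?_ ?_ hzw' (Finset.mem_filter.1 g5).1, ?_, hz,
      hb, ?_, by simp, ?_⟩
    · simp only [List.mem_append, List.mem_reverse, not_or]; exact hzx
    · simp only [List.mem_append, List.mem_cons, List.mem_reverse, not_or]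
      exact ⟨hwn'.1, hww', hwn'.2.2⟩
    · intro t ht
      simp only [List.mem_cons, List.mem_append, List.mem_reverse] at ht
      rcases ht with rfl | ht
      · exact hZ hz
      · exact hA t (List.mem_append.2 ht)
    · intro t ht
      simp only [List.mem_cons, List.mem_append, List.mem_reverse]
      exact Or.inr (List.mem_append.1 ht)
    · simp only [List.length_cons, List.length_append, List.length_reverse]; omega

/-- The linking lemma. -/
theorem link (hB : ∀ y, (N y).Nonempty → y ∈ B ∧ N y ⊆ A ∧ d ≤ (N y).card)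
    (hd : A.card + 1 ≤ 2 * d) (hZ : Z ⊆ A) {c : ℕ}
    (hdeg : ∀ x ∈ A, 2 * Z.card ≤ (B.filter (fun y => x ∈ N y)).card + 2) (hc : 1 ≤ c) :
    ∀ (n : ℕ) (a b : α) (xs : List α) (ys : List β), Pth (Inc N) a b xs ys →
      (∀ x ∈ xs, x ∈ A) → a ∈ Z → b ∈ Z → xs.length + c ≤ 2 * (Z.filter (fun x => x ∈ xs)).card →
      Z.card ≤ (Z.filter (fun x => x ∈ xs)).card + n →
    ∃ a b xs ys, Pth (Inc N) a b xs ys ∧ (∀ x ∈ xs, x ∈ A) ∧ a ∈ Z ∧ b ∈ Z ∧
      (∀ z ∈ Z, z ∈ xs) ∧ xs.length + c ≤ 2 * Z.card := by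
  intro n
  induction n with
  | zero =>
    intro a b xs ys h hA ha hb hl hn
    have h1 : Z.filter (fun x => x ∈ xs) = Z :=
      Finset.eq_of_subset_of_card_le (Finset.filter_subset _ _) (by omega)
    rw [h1] at hl
    refine ⟨a, b, xs, ys, h, hA, ha, hb, fun z hz => ?_, hl⟩
    rw [← h1] at hz
    exact (Finset.mem_filter.1 hz).2
  | succ n ih =>
    intro a b xs ys h hA ha hb hl hn
    by_cases hall : ∀ z ∈ Z, z ∈ xs
    · have h1 : Z.filter (fun x => x ∈ xs) = Z := Finset.filter_true_of_mem hall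
      rw [h1] at hl
      exact ⟨a, b, xs, ys, h, hA, ha, hb, hall, hl⟩
    · push Not at hall
      obtain ⟨z, hz, hzx⟩ := hall
      have hlt : (Z.filter (fun x => x ∈ xs)).card < Z.card := by
        apply Finset.card_lt_card
        rw [Finset.ssubset_iff_of_subset (Finset.filter_subset _ _)]
        exact ⟨z, hz, fun hh => hzx (Finset.mem_filter.1 hh).2⟩
      obtain ⟨a', b', xs', ys', k1, k2, k3, k4, k5, k6, k7⟩ := link_step hB hd hZ
        (fun x hx => by have := hdeg x hx; omega) h hA ha hb hz hzx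
      have h2 : insert z (Z.filter (fun x => x ∈ xs)) ⊆ Z.filter (fun x => x ∈ xs') := by
        intro t ht
        rw [Finset.mem_insert, Finset.mem_filter] at ht
        rw [Finset.mem_filter]
        rcases ht with rfl | ht
        · exact ⟨hz, k6⟩
        · exact ⟨ht.1, k5 t ht.2⟩
      have h3 : (Z.filter (fun x => x ∈ xs)).card + 1 ≤ (Z.filter (fun x => x ∈ xs')).card := by
        rw [← Finset.card_insert_of_notMem (a := z) (s := Z.filter (fun x => x ∈ xs))
          (fun hh => hzx (Finset.mem_filter.1 hh).2)]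
        exact Finset.card_le_card h2
      exact ih a' b' xs' ys' k1 k2 k3 k4 (by omega) (by omega)

end Pool.Agent.MP_52ca01_co
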