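import Pool.Agent.Lib.MP_52ca01_co.LemM
import Pool.Agent.Lib.MP_52ca01_co.Link

/-!
Cores, and completing a path in one core to a cycle through another core.
-/

set_option autoImplicit false
set_option linter.unusedSectionVars false

namespace Pool.Agent.MP_52ca01_co

open Finset

open scoped Classical in
/-- A core of the relation `R`: at most `k - 1` vertices on the left, each of degree at least `k`,
while the vertices on the right have degree at least `d`. -/
structure Core {α β : Type*} (R : α → β → Prop) (k d : ℕ) (A : Finset α) (B : Finset β) :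
    Prop where
  lt : A.card < k
  degB : ∀ y ∈ B, d ≤ (A.filter (fun x => R x y)).card
  degA : ∀ x ∈ A, k ≤ (B.filter (fun y => R x y)).card

/-- There is a cycle with `k` vertices on each side. -/
def HasCyc {α β : Type*} (R : α → β → Prop) (k : ℕ) : Prop :=
  ∃ a b xs ys z, Cyc R a b xs ys z ∧ xs.length = k

variable {α β : Type*} [DecidableEq α] [DecidableEq β]

open scoped Classical in
/-- Completing a path of the first colour to a cycle. -/
theorem attempt {R1 R2 R : α → β → Prop} (hR1 : ∀ x y, R1 x y → R x y)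
    (hR2 : ∀ x y, R2 x y → R x y) {k d : ℕ} (hk : k ≤ 2 * d) {A2 : Finset α} {B2 : Finset β}
    (c2 : Core R2 k d A2 B2) {u v : β} (huv : u ≠ v) (hu : u ∈ B2) (hv : v ∈ B2)
    {a b : α} {xs : List α} {ys : List β} (h : Pth R1 a b xs ys) (hau : R1 a u) (hbv : R1 b v)
    (huy : u ∉ ys) (hvy : v ∉ ys) (hl : xs.length + 1 ≤ 2 * (k - A2.card))
    (hout : k - A2.card ≤ (xs.toFinset \ A2).card) :
    HasCyc R k ∨ (2 * d = k ∧ xs.length + 1 = 2 * (k - A2.card) ∧ xs.length + 3 ≤ k ∧
      A2.filter (fun x => R2 x u) = A2.filter (fun x => R2 x v) ∧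
      (A2.filter (fun x => R2 x u)).card = d ∧
      ∃ W : Finset β, W ⊆ B2 ∧ u ∉ W ∧ v ∉ W ∧ k ≤ W.card + xs.length + 1 ∧
        ∀ y ∈ W, A2.filter (fun x => R2 x y) = A2.filter (fun x => R2 x u)) := by
  have ha2k := c2.lt
  have ha2d : d ≤ A2.card := (c2.degB u hu).trans (Finset.card_filter_le _ _)
  have hlen := h.length_eq
  have hq : xs.toFinset.card = xs.length := List.toFinset_card_of_nodup h.nx
  have hqy : ys.toFinset.card = ys.length := List.toFinset_card_of_nodup h.ny
  -- the remaining part of the core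
  have hsz : k - xs.length ≤ (A2 \ xs.toFinset).card := by
    have e1 := Finset.card_sdiff_add_card_inter A2 xs.toFinset
    have e2 := Finset.card_sdiff_add_card_inter xs.toFinset A2
    rw [Finset.inter_comm] at e2
    omega
  obtain ⟨A', hA's, hA'c⟩ := Finset.exists_subset_card_eq hsz
  have hA'2 : A' ⊆ A2 := hA's.trans Finset.sdiff_subset
  have hA'2c := Finset.card_le_card hA'2
  have hA'x : ∀ x ∈ A', x ∉ xs := fun x hx hh =>
    (Finset.mem_sdiff.1 (hA's hx)).2 (List.mem_toFinset.2 hh)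
  obtain ⟨B', hB'⟩ : ∃ B' : Finset β, B' = ((B2.erase u).erase v) \ ys.toFinset := ⟨_, rfl⟩
  have hB'mem : ∀ y, y ∈ B' ↔ y ∈ B2 ∧ y ≠ u ∧ y ≠ v ∧ y ∉ ys := by
    intro y
    rw [hB', Finset.mem_sdiff, Finset.mem_erase, Finset.mem_erase, List.mem_toFinset]
    tauto
  obtain ⟨d', hd'⟩ : ∃ d' : ℕ, d' = d + k - A2.card - xs.length := ⟨_, rfl⟩
  have hd'1 : d' + A2.card + xs.length = d + k := by omega
  -- lower bound for the neighbourhoods
  have hlow : ∀ y ∈ B2, d' ≤ (A'.filter (fun x => R2 x y)).card := by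
    intro y hy
    have h1 := c2.degB y hy
    have h2 : A2.filter (fun x => R2 x y) ⊆ A'.filter (fun x => R2 x y) ∪ (A2 \ A') := by
      intro x hx
      rw [Finset.mem_filter] at hx
      rw [Finset.mem_union, Finset.mem_filter, Finset.mem_sdiff]
      by_cases hxA : x ∈ A'
      · exact Or.inl ⟨hxA, hx.2⟩
      · exact Or.inr ⟨hx.1, hxA⟩
    have h3 := (Finset.card_le_card h2).trans (Finset.card_union_le _ _)
    rw [Finset.card_sdiff_of_subset hA'2] at h3
    omega
  -- tight neighbourhoods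
  have htight : ∀ y ∈ B2, (A'.filter (fun x => R2 x y)).card = d' →
      A2.filter (fun x => R2 x y) = A'.filter (fun x => R2 x y) ∪ (A2 \ A') ∧
      (A2.filter (fun x => R2 x y)).card = d := by
    intro y hy hc
    have h1 := c2.degB y hy
    have h2 : A2.filter (fun x => R2 x y) ⊆ A'.filter (fun x => R2 x y) ∪ (A2 \ A') := by
      intro x hx
      rw [Finset.mem_filter] at hx
      rw [Finset.mem_union, Finset.mem_filter, Finset.mem_sdiff]
      by_cases hxA : x ∈ A'
      · exact Or.inl ⟨hxA, hx.2⟩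
      · exact Or.inr ⟨hx.1, hxA⟩
    have h3 := Finset.card_union_le (A'.filter (fun x => R2 x y)) (A2 \ A')
    have h4 := Finset.card_le_card h2
    rw [Finset.card_sdiff_of_subset hA'2] at h3
    have h5 := Finset.eq_of_subset_of_card_le h2 (by omega)
    exact ⟨h5, by omega⟩
  obtain ⟨N, hN⟩ : ∃ N : β → Finset α,
    N = fun y => if y ∈ B' then A'.filter (fun x => R2 x y) else ∅ := ⟨_, rfl⟩
  have hNmem : ∀ x y, x ∈ N y ↔ y ∈ B' ∧ x ∈ A' ∧ R2 x y := by
    intro x y
    rw [hN]
    by_cases hy : y ∈ B'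
    · simp only [hy, if_true, Finset.mem_filter, true_and]
    · simp only [hy, if_false, Finset.notMem_empty, false_and]
  have hNB : ∀ y, (N y).Nonempty → y ∈ B' ∧ N y ⊆ A' ∧ d' ≤ (N y).card := by
    rintro y ⟨x, hx⟩
    have hx' := (hNmem x y).1 hx
    refine ⟨hx'.1, fun t ht => ((hNmem t y).1 ht).2.1, ?_⟩
    have : N y = A'.filter (fun x => R2 x y) := by rw [hN]; simp [hx'.1]
    rw [this]
    exact hlow y ((hB'mem y).1 hx'.1).1
  have hdeg : ∀ x ∈ A', A'.card ≤ (B'.filter (fun y => x ∈ N y)).card + 1 := by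
    intro x hx
    have h1 := c2.degA x (hA'2 hx)
    have h2 : B2.filter (fun y => R2 x y) ⊆
        (B'.filter (fun y => x ∈ N y)) ∪ ({u, v} ∪ ys.toFinset) := by
      intro y hy
      rw [Finset.mem_filter] at hy
      simp only [Finset.mem_union, Finset.mem_filter, Finset.mem_insert, Finset.mem_singleton,
        List.mem_toFinset, hNmem, hB'mem]
      tauto
    have h3 := (Finset.card_le_card h2).trans (Finset.card_union_le _ _)
    have h4 := Finset.card_union_le ({u, v} : Finset β) ys.toFinset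
    rw [Finset.card_pair huv] at h4
    omega
  have hA'ne : A'.Nonempty := Finset.card_pos.1 (by omega)
  rcases lemma_M (d := d') hNB (by omega) hdeg hA'ne (U := A'.filter (fun x => R2 x u))
    (V := A'.filter (fun x => R2 x v)) (Finset.filter_subset _ _) (Finset.filter_subset _ _)
    (hlow u hu) (hlow v hv) with ⟨a', b', xs', ys', hF, ha', hb'⟩ | ⟨m1, m2, m3, m4, x, hx, hxy⟩
  · left
    rw [Finset.mem_filter] at ha' hb'
    have hys' : ∀ y ∈ ys', y ∈ B' := by
      intro y hy
      obtain ⟨x, hx, hxy⟩ := hF.lk.rel_of_mem hy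
      exact ((hNmem x y).1 hxy).1
    have hP' : Pth R a' b' xs' ys' :=
      ⟨hF.lk.mono (fun x y hxy => hR2 _ _ ((hNmem x y).1 hxy).2.2), hF.nx, hF.ny⟩
    have hlen' := hF.length_eq
    have hJ := (h.mono hR1).join hP'.reverse (y := v)
      (fun x hx hx' => hA'x x ((hF.mem x).1 (List.mem_reverse.1 hx')) hx)
      (fun y hy hy' => ((hB'mem y).1 (hys' y (List.mem_reverse.1 hy'))).2.2.2 hy) hvy
      (fun hh => ((hB'mem v).1 (hys' v (List.mem_reverse.1 hh))).2.2.1 rfl)
      (hR1 _ _ hbv) (hR2 _ _ hb'.2)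
    refine ⟨a, a', _, _, u, ⟨hJ, ?_, hR1 _ _ hau, hR2 _ _ ha'.2⟩, ?_⟩
    · simp only [List.mem_append, List.mem_cons, List.mem_reverse, not_or]
      exact ⟨huy, huv, fun hh => ((hB'mem u).1 (hys' u hh)).2.1 rfl⟩
    · rw [List.length_append, List.length_reverse]
      omega
  · right
    have hx1 := Finset.mem_filter.1 hx
    obtain ⟨t1, t2⟩ := htight u hu m4
    obtain ⟨t3, t4⟩ := htight v hv (by rw [← m3]; exact m4)
    refine ⟨by omega, by omega, by omega, by rw [t1, t3, m3], t2,
      B'.filter (fun y => x ∈ N y), ?_, ?_, ?_, ?_, ?_⟩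
    · intro y hy
      exact ((hB'mem y).1 (Finset.mem_filter.1 hy).1).1
    · intro hh
      exact ((hB'mem u).1 (Finset.mem_filter.1 hh).1).2.1 rfl
    · intro hh
      exact ((hB'mem v).1 (Finset.mem_filter.1 hh).1).2.2.1 rfl
    · have := hdeg x hx1.1
      omega
    · intro y hy
      obtain ⟨hy1, hy2⟩ := Finset.mem_filter.1 hy
      have e1 := hxy y hy2
      have e2 : N y = A'.filter (fun x => R2 x y) := by rw [hN]; simp [hy1]
      obtain ⟨t5, -⟩ := htight y ((hB'mem y).1 hy1).1 (by rw [← e2, e1]; exact m4)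
      rw [t5, t1, ← e2, e1]

end Pool.Agent.MP_52ca01_co
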