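import Pool.Agent.Lib.MP_52ca01_co.Attempt

/-!
Two vertices in a common core of two different colours give a cycle in the two colours.
-/

set_option autoImplicit false
set_option linter.unusedSectionVars false

namespace Pool.Agent.MP_52ca01_co

open Finset

variable {α β : Type*} [DecidableEq α] [DecidableEq β]

open scoped Classical in
theorem side {R1 R2 R : α → β → Prop} (hR1 : ∀ x y, R1 x y → R x y)
    (hR2 : ∀ x y, R2 x y → R x y) {k d : ℕ} (hk : k ≤ 2 * d) {A1 A2 : Finset α}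
    {B1 B2 : Finset β} (c1 : Core R1 k d A1 B1) (c2 : Core R2 k d A2 B2) {u v : β} (huv : u ≠ v)
    (hu2 : u ∈ B2) (hv2 : v ∈ B2) {Z : Finset α}
    (hZ : Z ⊆ (A1.filter (fun x => R1 x u) ∩ A1.filter (fun x => R1 x v)) \ A2)
    (hZc : Z.card = k - A2.card) :
    HasCyc R k ∨ (2 * d = k ∧ A2.filter (fun x => R2 x u) = A2.filter (fun x => R2 x v) ∧
      (A2.filter (fun x => R2 x u)).card = d ∧
      (∀ w ∈ B1, w ≠ u → w ≠ v → ∀ z1 ∈ Z, ∀ z2 ∈ Z, z1 ≠ z2 → R1 z1 w → ¬ R1 z2 w) ∧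
      ∃ W : Finset β, W ⊆ B2 ∧ u ∉ W ∧ v ∉ W ∧ 2 ≤ W.card ∧ (Z.card = 1 → k ≤ W.card + 2) ∧
        ∀ y ∈ W, A2.filter (fun x => R2 x y) = A2.filter (fun x => R2 x u)) := by
  have ha2k := c2.lt
  have ha1k := c1.lt
  have ha2d : d ≤ A2.card := (c2.degB u hu2).trans (Finset.card_filter_le _ _)
  have hZ' : ∀ z ∈ Z, z ∈ A1 ∧ R1 z u ∧ R1 z v ∧ z ∉ A2 := by
    intro z hz
    have := hZ hz
    simp only [Finset.mem_sdiff, Finset.mem_inter, Finset.mem_filter] at this
    tauto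
  obtain ⟨B', hB'⟩ : ∃ B' : Finset β, B' = (B1.erase u).erase v := ⟨_, rfl⟩
  have hB'mem : ∀ y, y ∈ B' ↔ y ∈ B1 ∧ y ≠ u ∧ y ≠ v := by
    intro y
    rw [hB', Finset.mem_erase, Finset.mem_erase]
    tauto
  obtain ⟨N, hN⟩ : ∃ N : β → Finset α,
    N = fun y => if y ∈ B' then A1.filter (fun x => R1 x y) else ∅ := ⟨_, rfl⟩
  have hNmem : ∀ x y, x ∈ N y ↔ y ∈ B' ∧ x ∈ A1 ∧ R1 x y := by
    intro x y
    rw [hN]
    by_cases hy : y ∈ B'
    · simp only [hy, if_true, Finset.mem_filter, true_and]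
    · simp only [hy, if_false, Finset.notMem_empty, false_and]
  have hNB : ∀ y, (N y).Nonempty → y ∈ B' ∧ N y ⊆ A1 ∧ d ≤ (N y).card := by
    rintro y ⟨x, hx⟩
    have hx' := (hNmem x y).1 hx
    refine ⟨hx'.1, fun t ht => ((hNmem t y).1 ht).2.1, ?_⟩
    have : N y = A1.filter (fun x => R1 x y) := by rw [hN]; simp [hx'.1]
    rw [this]
    exact c1.degB y ((hB'mem y).1 hx'.1).1
  have hdeg : ∀ x ∈ A1, 2 * Z.card ≤ (B'.filter (fun y => x ∈ N y)).card + 2 := by
    intro x hx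
    have h1 := c1.degA x hx
    have h2 : B1.filter (fun y => R1 x y) ⊆ (B'.filter (fun y => x ∈ N y)) ∪ {u, v} := by
      intro y hy
      rw [Finset.mem_filter] at hy
      simp only [Finset.mem_union, Finset.mem_filter, Finset.mem_insert, Finset.mem_singleton,
        hNmem, hB'mem]
      tauto
    have h3 := (Finset.card_le_card h2).trans (Finset.card_union_le _ _)
    rw [Finset.card_pair huv] at h3
    omega
  -- from a starting path to a cycle
  have key : ∀ (c : ℕ) (a b : α) (xs : List α) (ys : List β), 1 ≤ c → Pth (Inc N) a b xs ys →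
      (∀ x ∈ xs, x ∈ A1) → a ∈ Z → b ∈ Z →
      xs.length + c ≤ 2 * (Z.filter (fun x => x ∈ xs)).card →
      HasCyc R k ∨ (2 * d = k ∧ c = 1 ∧ A2.filter (fun x => R2 x u) = A2.filter (fun x => R2 x v) ∧
      (A2.filter (fun x => R2 x u)).card = d ∧
      ∃ W : Finset β, W ⊆ B2 ∧ u ∉ W ∧ v ∉ W ∧ 2 ≤ W.card ∧ (Z.card = 1 → k ≤ W.card + 2) ∧
        ∀ y ∈ W, A2.filter (fun x => R2 x y) = A2.filter (fun x => R2 x u)) := by
    intro c a b xs ys hc h hA ha hb hl
    obtain ⟨a', b', xs', ys', k1, k2, k3, k4, k5, k6⟩ := link hNB (by omega)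
      (fun z hz => (hZ' z hz).1) hdeg hc Z.card a b xs ys h hA ha hb hl (by omega)
    have hys' : ∀ y ∈ ys', y ∈ B' := by
      intro y hy
      obtain ⟨x, hx, hxy⟩ := k1.lk.rel_of_mem hy
      exact ((hNmem x y).1 hxy).1
    have hout : Z ⊆ xs'.toFinset \ A2 := by
      intro z hz
      rw [Finset.mem_sdiff, List.mem_toFinset]
      exact ⟨k5 z hz, (hZ' z hz).2.2.2⟩
    have hout' := Finset.card_le_card hout
    rcases attempt hR1 hR2 hk c2 huv hu2 hv2
      (k1.mono (fun x y hxy => ((hNmem x y).1 hxy).2.2)) (hZ' a' k3).2.1 (hZ' b' k4).2.2.1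
      (fun hh => ((hB'mem u).1 (hys' u hh)).2.1 rfl)
      (fun hh => ((hB'mem v).1 (hys' v hh)).2.2 rfl) (by omega) (by omega) with
      h | ⟨m1, m2, m3, m4, m5, W, w1, w2, w3, w4, w5⟩
    · exact Or.inl h
    · refine Or.inr ⟨m1, by omega, m4, m5, W, w1, w2, w3, by omega, fun h => by omega, w5⟩
  have hZpos : 0 < Z.card := by omega
  obtain ⟨z, hz⟩ := Finset.card_pos.1 hZpos
  have hstart := key 1 z z [z] [] le_rfl (Pth.single z) (by simpa using (hZ' z hz).1) hz hz (by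
    have : Z.filter (fun x => x ∈ [z]) = {z} := by
      ext t
      simp only [Finset.mem_filter, List.mem_singleton, Finset.mem_singleton]
      constructor
      · exact fun h => h.2
      · rintro rfl; exact ⟨hz, rfl⟩
    rw [this]; simp)
  rcases hstart with h | ⟨m1, -, m3, m4, m5⟩
  · exact Or.inl h
  by_cases hcyc : HasCyc R k
  · exact Or.inl hcyc
  refine Or.inr ⟨m1, m3, m4, ?_, m5⟩
  intro w hw hwu hwv z1 hz1 z2 hz2 hne h1 h2
  have hwB : w ∈ B' := (hB'mem w).2 ⟨hw, hwu, hwv⟩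
  have hP : Pth (Inc N) z1 z2 [z1, z2] [w] :=
    (Pth.single z2).cons (by simpa using hne) (by simp)
      ((hNmem z1 w).2 ⟨hwB, (hZ' z1 hz1).1, h1⟩) ((hNmem z2 w).2 ⟨hwB, (hZ' z2 hz2).1, h2⟩)
  rcases key 2 z1 z2 [z1, z2] [w] (by norm_num) hP (by
    intro x hx
    simp only [List.mem_cons, List.not_mem_nil, or_false] at hx
    rcases hx with rfl | rfl
    · exact (hZ' _ hz1).1
    · exact (hZ' _ hz2).1) hz1 hz2 (by
    have : Z.filter (fun x => x ∈ [z1, z2]) = {z1, z2} := by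
      ext t
      simp only [Finset.mem_filter, List.mem_cons, List.not_mem_nil, or_false,
        Finset.mem_insert, Finset.mem_singleton]
      constructor
      · exact fun h => h.2
      · rintro (rfl | rfl)
        · exact ⟨hz1, Or.inl rfl⟩
        · exact ⟨hz2, Or.inr rfl⟩
    rw [this, Finset.card_pair hne]; simp) with h | ⟨-, h, -⟩
  · exact hcyc h
  · omega

/-- A path in a complete bipartite graph. -/
theorem Pth.complete {R : α → β → Prop} : ∀ (xs : List α) (ys : List β), xs.Nodup → ys.Nodup →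
    xs.length = ys.length + 1 → (∀ x ∈ xs, ∀ y ∈ ys, R x y) → ∃ a b, Pth R a b xs ys := by
  intro xs
  induction xs with
  | nil => intro ys _ _ h; simp at h
  | cons x xs ih =>
    intro ys hx hy hl hR
    cases ys with
    | nil =>
      have : xs = [] := by
        rw [← List.length_eq_zero_iff]; simpa using hl
      subst this
      exact ⟨x, x, Pth.single x⟩
    | cons y ys =>
      obtain ⟨a, b, h⟩ := ih ys (List.nodup_cons.1 hx).2 (List.nodup_cons.1 hy).2
        (by simpa using hl)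
        (fun s hs t ht => hR s (List.mem_cons_of_mem _ hs) t (List.mem_cons_of_mem _ ht))
      exact ⟨x, b, h.cons (List.nodup_cons.1 hx).1 (List.nodup_cons.1 hy).1
        (hR x List.mem_cons_self y List.mem_cons_self)
        (hR a (List.mem_cons_of_mem _ h.lk.head_mem) y List.mem_cons_self)⟩

/-- Counting for the two sides. -/
theorem dichotomy {U1 V1 U2 V2 A1 A2 : Finset α} (hU1 : U1 ⊆ A1) (hV1 : V1 ⊆ A1) (hU2 : U2 ⊆ A2)
    (hV2 : V2 ⊆ A2) (hU : Disjoint U1 U2) (hV : Disjoint V1 V2) :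
    U1.card + V1.card + U2.card + V2.card ≤
      A1.card + A2.card + ((U1 ∩ V1) \ A2).card + ((U2 ∩ V2) \ A1).card := by
  have e1 := Finset.card_union_add_card_inter U1 V1
  have e2 := Finset.card_union_add_card_inter U2 V2
  have e3 := Finset.card_sdiff_add_card_inter (U1 ∩ V1) A2
  have e4 := Finset.card_sdiff_add_card_inter (U2 ∩ V2) A1
  have d1 : Disjoint (U1 ∪ V1) (U2 ∩ V2 ∩ A1) := by
    rw [Finset.disjoint_left]
    intro x hx hx'
    simp only [Finset.mem_inter, Finset.mem_union] at hx hx'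
    rcases hx with hx | hx
    · exact (Finset.disjoint_left.1 hU) hx hx'.1.1
    · exact (Finset.disjoint_left.1 hV) hx hx'.1.2
  have d2 : Disjoint (U2 ∪ V2) (U1 ∩ V1 ∩ A2) := by
    rw [Finset.disjoint_left]
    intro x hx hx'
    simp only [Finset.mem_inter, Finset.mem_union] at hx hx'
    rcases hx with hx | hx
    · exact (Finset.disjoint_left.1 hU) hx'.1.1 hx
    · exact (Finset.disjoint_left.1 hV) hx'.1.2 hx
  have f1 := Finset.card_union_of_disjoint d1
  have f2 := Finset.card_union_of_disjoint d2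
  have f3 := Finset.card_le_card (Finset.union_subset (Finset.union_subset hU1 hV1)
    (Finset.inter_subset_right : U2 ∩ V2 ∩ A1 ⊆ A1))
  have f4 := Finset.card_le_card (Finset.union_subset (Finset.union_subset hU2 hV2)
    (Finset.inter_subset_right : U1 ∩ V1 ∩ A2 ⊆ A2))
  omega

/-- A list of given length in a large set. -/
theorem exists_list {W : Finset β} {n : ℕ} (h : n ≤ W.card) :
    ∃ l : List β, l.Nodup ∧ l.length = n ∧ ∀ y ∈ l, y ∈ W := by
  obtain ⟨T, hT, hc⟩ := Finset.exists_subset_card_eq h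
  exact ⟨T.toList, T.nodup_toList, by rw [Finset.length_toList, hc],
    fun y hy => hT (Finset.mem_toList.1 hy)⟩

open scoped Classical in
/-- The cycle inside two complete blocks. -/
theorem blocks {R1 R2 R : α → β → Prop} (hR1 : ∀ x y, R1 x y → R x y)
    (hR2 : ∀ x y, R2 x y → R x y) {k d : ℕ} (hk : 2 * d = k) (hd : 1 ≤ d) {S1 S2 : Finset α}
    {W1 W2 : Finset β} {u v : β} (huv : u ≠ v) (hS : Disjoint S1 S2) (hS1 : S1.card = d)
    (hS2 : S2.card = d) (hu1 : ∀ x ∈ S1, R1 x u) (hv1 : ∀ x ∈ S1, R1 x v)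
    (hu2 : ∀ x ∈ S2, R2 x u) (hv2 : ∀ x ∈ S2, R2 x v) (w1 : ∀ x ∈ S1, ∀ y ∈ W1, R1 x y)
    (w2 : ∀ x ∈ S2, ∀ y ∈ W2, R2 x y) (n1 : u ∉ W1) (n2 : v ∉ W1) (n3 : u ∉ W2) (n4 : v ∉ W2)
    (k1 : k ≤ W1.card + 2) (k2 : k ≤ W2.card + 2) : HasCyc R k := by
  obtain ⟨m1, p1, p2, p3⟩ := exists_list (W := W1) (n := d - 1) (by omega)
  obtain ⟨m2, q1, q2, q3⟩ := exists_list (W := W2 \ m1.toFinset) (n := d - 1) (by
    have h1 := Finset.le_card_sdiff m1.toFinset W2
    have h2 := List.toFinset_card_of_nodup p1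
    omega)
  obtain ⟨a1, b1, g1⟩ := Pth.complete (R := R) S1.toList m1 S1.nodup_toList p1
    (by rw [Finset.length_toList]; omega)
    (fun x hx y hy => hR1 _ _ (w1 x (Finset.mem_toList.1 hx) y (p3 y hy)))
  obtain ⟨a2, b2, g2⟩ := Pth.complete (R := R) S2.toList m2 S2.nodup_toList q1
    (by rw [Finset.length_toList]; omega)
    (fun x hx y hy => hR2 _ _ (w2 x (Finset.mem_toList.1 hx) y
      (Finset.mem_sdiff.1 (q3 y hy)).1))
  have hJ := g1.join g2 (y := v)
    (fun x hx hx' => (Finset.disjoint_left.1 hS) (Finset.mem_toList.1 hx)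
      (Finset.mem_toList.1 hx'))
    (fun y hy hy' => (Finset.mem_sdiff.1 (q3 y hy')).2 (List.mem_toFinset.2 hy))
    (fun hh => n2 (p3 v hh)) (fun hh => n4 (Finset.mem_sdiff.1 (q3 v hh)).1)
    (hR1 _ _ (hv1 b1 (Finset.mem_toList.1 g1.lk.last_mem)))
    (hR2 _ _ (hv2 a2 (Finset.mem_toList.1 g2.lk.head_mem)))
  refine ⟨a1, b2, _, _, u, ⟨hJ, ?_, hR1 _ _ (hu1 a1 (Finset.mem_toList.1 g1.lk.head_mem)),
    hR2 _ _ (hu2 b2 (Finset.mem_toList.1 g2.lk.last_mem))⟩, ?_⟩
  · simp only [List.mem_append, List.mem_cons, not_or]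
    exact ⟨fun hh => n1 (p3 u hh), huv, fun hh => n3 (Finset.mem_sdiff.1 (q3 u hh)).1⟩
  · rw [List.length_append, Finset.length_toList, Finset.length_toList]
    omega

open scoped Classical in
/-- One side of the dichotomy is enough. -/
theorem star_side {R1 R2 R : α → β → Prop} (hR1 : ∀ x y, R1 x y → R x y)
    (hR2 : ∀ x y, R2 x y → R x y) (hdis : ∀ x y, R1 x y → ¬ R2 x y) {k d : ℕ} (hk : k ≤ 2 * d)
    {A1 A2 : Finset α} {B1 B2 : Finset β} (c1 : Core R1 k d A1 B1) (c2 : Core R2 k d A2 B2)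
    {u v : β} (huv : u ≠ v) (hu1 : u ∈ B1) (hv1 : v ∈ B1) (hu2 : u ∈ B2) (hv2 : v ∈ B2)
    (hs : k - A2.card ≤ ((A1.filter (fun x => R1 x u) ∩ A1.filter (fun x => R1 x v)) \ A2).card) :
    HasCyc R k := by
  by_contra hno
  have ha2k := c2.lt
  have ha1k := c1.lt
  obtain ⟨Z, hZ, hZc⟩ := Finset.exists_subset_card_eq hs
  rcases side hR1 hR2 hk c1 c2 huv hu2 hv2 hZ hZc with h |
    ⟨m1, m2, m3, m4, W2, w1, w2, w3, w4, w5, w6⟩
  · exact hno h
  -- the other side
  have hS2 : k - A1.card ≤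
      ((A2.filter (fun x => R2 x u) ∩ A2.filter (fun x => R2 x v)) \ A1).card := by
    rw [← m2, Finset.inter_self]
    have e1 := Finset.card_sdiff_add_card_inter (A2.filter (fun x => R2 x u)) A1
    have e2 := c1.degB u hu1
    have e3 : Disjoint (A1.filter (fun x => R1 x u)) (A2.filter (fun x => R2 x u) ∩ A1) := by
      rw [Finset.disjoint_left]
      intro x hx hx'
      simp only [Finset.mem_inter, Finset.mem_filter] at hx hx'
      exact hdis x u hx.2 hx'.1.2
    have e4 := Finset.card_union_of_disjoint e3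
    have e5 := Finset.card_le_card (Finset.union_subset
      (Finset.filter_subset (fun x => R1 x u) A1)
      (Finset.inter_subset_right : A2.filter (fun x => R2 x u) ∩ A1 ⊆ A1))
    omega
  obtain ⟨Z', hZ', hZc'⟩ := Finset.exists_subset_card_eq hS2
  rcases side hR2 hR1 hk c2 c1 huv hu1 hv1 hZ' hZc' with h |
    ⟨-, l2, l3, l4, W1, x1, x2, x3, x4, x5, x6⟩
  · exact hno h
  have hmem1 : ∀ x, x ∈ A1.filter (fun x => R1 x u) ↔ x ∈ A1.filter (fun x => R1 x v) := by
    intro x; rw [l2]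
  have hmem2 : ∀ x, x ∈ A2.filter (fun x => R2 x u) ↔ x ∈ A2.filter (fun x => R2 x v) := by
    intro x; rw [m2]
  -- `Z` has one element
  have hZ1 : Z.card = 1 := by
    by_contra hne
    have h2 : 1 < Z.card := by omega
    obtain ⟨z1, hz1, z2, hz2, hz⟩ := Finset.one_lt_card.1 h2
    obtain ⟨w, hw⟩ : W1.Nonempty := Finset.card_pos.1 (by omega)
    have hwe := x6 w hw
    have hz1' := hZ hz1
    have hz2' := hZ hz2
    simp only [Finset.mem_sdiff, Finset.mem_inter] at hz1' hz2'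
    have a1 : z1 ∈ A1.filter (fun x => R1 x w) := by rw [hwe]; exact hz1'.1.1
    have a2 : z2 ∈ A1.filter (fun x => R1 x w) := by rw [hwe]; exact hz2'.1.1
    exact m4 w (x1 hw) (fun h => x2 (h ▸ hw)) (fun h => x3 (h ▸ hw)) z1 hz1 z2 hz2 hz
      (Finset.mem_filter.1 a1).2 (Finset.mem_filter.1 a2).2
  have hZ1' : Z'.card = 1 := by
    by_contra hne
    have h2 : 1 < Z'.card := by omega
    obtain ⟨z1, hz1, z2, hz2, hz⟩ := Finset.one_lt_card.1 h2
    obtain ⟨w, hw⟩ : W2.Nonempty := Finset.card_pos.1 (by omega)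
    have hwe := w6 w hw
    have hz1' := hZ' hz1
    have hz2' := hZ' hz2
    simp only [Finset.mem_sdiff, Finset.mem_inter] at hz1' hz2'
    have a1 : z1 ∈ A2.filter (fun x => R2 x w) := by rw [hwe]; exact hz1'.1.1
    have a2 : z2 ∈ A2.filter (fun x => R2 x w) := by rw [hwe]; exact hz2'.1.1
    exact l4 w (w1 hw) (fun h => w2 (h ▸ hw)) (fun h => w3 (h ▸ hw)) z1 hz1 z2 hz2 hz
      (Finset.mem_filter.1 a1).2 (Finset.mem_filter.1 a2).2
  refine hno (blocks hR1 hR2 m1 (by omega) (S1 := A1.filter (fun x => R1 x u))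
    (S2 := A2.filter (fun x => R2 x u)) (W1 := W1) (W2 := W2) huv ?_ l3 m3 ?_ ?_ ?_ ?_ ?_ ?_
    x2 x3 w2 w3 (x5 hZ1') (w5 hZ1))
  · rw [Finset.disjoint_left]
    intro x hx hx'
    exact hdis x u (Finset.mem_filter.1 hx).2 (Finset.mem_filter.1 hx').2
  · exact fun x hx => (Finset.mem_filter.1 hx).2
  · exact fun x hx => (Finset.mem_filter.1 ((hmem1 x).1 hx)).2
  · exact fun x hx => (Finset.mem_filter.1 hx).2
  · exact fun x hx => (Finset.mem_filter.1 ((hmem2 x).1 hx)).2
  · intro x hx y hy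
    have := x6 y hy
    rw [← this] at hx
    exact (Finset.mem_filter.1 hx).2
  · intro x hx y hy
    have := w6 y hy
    rw [← this] at hx
    exact (Finset.mem_filter.1 hx).2

open scoped Classical in
/-- Two different vertices in a common core for two different colours give a cycle. -/
theorem star {R1 R2 R : α → β → Prop} (hR1 : ∀ x y, R1 x y → R x y)
    (hR2 : ∀ x y, R2 x y → R x y) (hdis : ∀ x y, R1 x y → ¬ R2 x y) {k d : ℕ} (hk : k ≤ 2 * d)
    {A1 A2 : Finset α} {B1 B2 : Finset β} (c1 : Core R1 k d A1 B1) (c2 : Core R2 k d A2 B2)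
    {u v : β} (huv : u ≠ v) (hu1 : u ∈ B1) (hv1 : v ∈ B1) (hu2 : u ∈ B2) (hv2 : v ∈ B2) :
    HasCyc R k := by
  have e1 := dichotomy (A1 := A1) (A2 := A2) (U1 := A1.filter (fun x => R1 x u))
    (V1 := A1.filter (fun x => R1 x v))
    (U2 := A2.filter (fun x => R2 x u)) (V2 := A2.filter (fun x => R2 x v))
    (Finset.filter_subset _ _) (Finset.filter_subset _ _) (Finset.filter_subset _ _)
    (Finset.filter_subset _ _)
    (by
      rw [Finset.disjoint_left]
      intro x hx hx'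
      exact hdis x u (Finset.mem_filter.1 hx).2 (Finset.mem_filter.1 hx').2)
    (by
      rw [Finset.disjoint_left]
      intro x hx hx'
      exact hdis x v (Finset.mem_filter.1 hx).2 (Finset.mem_filter.1 hx').2)
  have f1 := c1.degB u hu1
  have f2 := c1.degB v hv1
  have f3 := c2.degB u hu2
  have f4 := c2.degB v hv2
  have l1 := c1.lt
  have l2 := c2.lt
  by_cases hs : k - A2.card ≤
      ((A1.filter (fun x => R1 x u) ∩ A1.filter (fun x => R1 x v)) \ A2).card
  · exact star_side hR1 hR2 hdis hk c1 c2 huv hu1 hv1 hu2 hv2 hs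
  · exact star_side hR2 hR1 (fun x y h h' => hdis x y h' h) hk c2 c1 huv hu2 hv2 hu1 hv1
      (by omega)

end Pool.Agent.MP_52ca01_co
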