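import Pool.Agent.Lib.MP_52ca01_co.Pot
import Pool.Agent.Lib.MP_52ca01_co.Star

/-!
Summing over the colours.
-/

set_option autoImplicit false
set_option linter.unusedSectionVars false

namespace Pool.Agent.MP_52ca01_co

open Finset

variable {α β : Type*} [DecidableEq α] [DecidableEq β]

theorem HasCyc.flip {R : α → β → Prop} {k : ℕ} (h : HasCyc R k) :
    HasCyc (fun y x => R x y) k := by
  obtain ⟨a, b, xs, ys, z, h1, h2⟩ := h
  obtain ⟨y1, t, e1, e2, e3, e4⟩ := h1.pth.flip h1.nz h1.lb
  refine ⟨y1, z, _, t, a, ⟨e2, e4, e3, h1.la⟩, ?_⟩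
  have := h1.pth.length_eq
  rw [List.length_append, List.length_singleton]
  omega

/-- The pairs that are good for some colour. -/
theorem sum_hp_le {γ : Type*} [Fintype γ] [Fintype β] (P : γ → β → β → Prop)
    (h : ∀ i j u v, u ≠ v → P i u v → P j u v → i = j) :
    ∑ i, hp (P i) (Finset.univ : Finset β) ≤ Fintype.card β * (Fintype.card β - 1) := by
  classical
  have h1 : ∑ i, hp (P i) (Finset.univ : Finset β) =
      ((Finset.univ : Finset γ).biUnion (fun i =>
        (Finset.univ : Finset β).offDiag.filter (fun p => P i p.1 p.2))).card := by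
    rw [Finset.card_biUnion]
    · refine Finset.sum_congr rfl fun i _ => ?_
      unfold hp
      congr
    · intro i _ j _ hij
      rw [Function.onFun, Finset.disjoint_left]
      intro p hp hp'
      rw [Finset.mem_filter, Finset.mem_offDiag] at hp hp'
      exact hij (h i j p.1 p.2 hp.1.2.2 hp.2 hp'.2)
  rw [h1]
  have h2 : ((Finset.univ : Finset γ).biUnion (fun i =>
        (Finset.univ : Finset β).offDiag.filter (fun p => P i p.1 p.2))) ⊆
      (Finset.univ : Finset β).offDiag := by
    intro p hp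
    rw [Finset.mem_biUnion] at hp
    obtain ⟨i, -, hi⟩ := hp
    exact (Finset.mem_filter.1 hi).1
  refine (Finset.card_le_card h2).trans ?_
  rw [Finset.offDiag_card, Finset.card_univ, Nat.mul_sub, Nat.mul_one]

/-- The counting argument. -/
theorem count {n N k : ℕ} (hk : 2 ≤ k) (col : Fin n → Fin n → Fin N)
    (hcol : ∀ i j, ¬ HasCyc (fun x y => col x y = i ∨ col x y = j) k) :
    (2 * k - 1 : ℤ) ^ 2 * n ^ 2 ≤
      2 * (k - 1) * k * (2 * k - 1) * (n * N) + (k - 1 : ℤ) ^ 2 * (n * (n - 1)) := by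
  obtain ⟨m, rfl⟩ : ∃ m, k = m + 1 := ⟨k - 1, by omega⟩
  obtain ⟨t, ht1, ht2⟩ : ∃ t, 2 * t ≤ m ∧ m ≤ 2 * t + 1 := ⟨m / 2, by omega, by omega⟩
  have hmix : ∀ i, ¬ Mix (fun x y => col x y = i) (m + 1) := by
    rintro i ⟨a, b, xs, ys, y, h1, h2, h3, h4⟩
    exact hcol i (col a y) ⟨a, b, xs, ys, y, ⟨h1.mono (fun x y h => Or.inl h), h2, Or.inr rfl,
      Or.inl h3⟩, h4⟩
  have hpot : ∀ i, Pot (fun x y => col x y = i) m t Finset.univ Finset.univ :=
    fun i => pot (by omega) ht1 ht2 (hmix i) _ _ _ le_rfl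
  have hsum := Finset.sum_le_sum (fun i (_ : i ∈ (Finset.univ : Finset (Fin N))) => hpot i)
  -- the number of edges
  have hedge : ∑ i, edg (fun x y => col x y = i) Finset.univ Finset.univ = n * n := by
    unfold edg
    rw [Finset.sum_comm]
    have : ∀ y : Fin n, ∑ i, (Finset.univ.filter (fun x => col x y = i)).card = n := by
      intro y
      have h1 := Finset.card_eq_sum_card_fiberwise (f := fun x : Fin n => col x y)
        (s := Finset.univ) (t := Finset.univ) (fun x _ => by simp)
      rw [Finset.card_univ, Fintype.card_fin] at h1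
      exact h1.symm
    calc _ = ∑ y : Fin n, ∑ i, (Finset.univ.filter (fun x => col x y = i)).card := by
          refine Finset.sum_congr rfl fun y _ => Finset.sum_congr rfl fun i _ => ?_
          congr
      _ = ∑ y : Fin n, n := Finset.sum_congr rfl fun y _ => this y
      _ = n * n := by simp
  -- the good pairs
  have hk2 : m + 1 ≤ 2 * (t + 1) := by omega
  have hg1 : ∑ i, hp (Good (fun x y => col x y = i) (m + 1) (t + 1))
      (Finset.univ : Finset (Fin n)) ≤ n * (n - 1) := by
    have := sum_hp_le (β := Fin n) (fun i : Fin N => Good (fun x y => col x y = i) (m + 1) (t + 1))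
      (by
        rintro i j u v huv ⟨A1, B1, c1, hu1, hv1⟩ ⟨A2, B2, c2, hu2, hv2⟩
        by_contra hij
        exact hcol i j (star (R := fun x y => col x y = i ∨ col x y = j)
          (fun x y h => Or.inl h) (fun x y h => Or.inr h)
          (fun x y h h' => hij (h.symm.trans h')) hk2 c1 c2 huv hu1 hv1 hu2 hv2))
    rwa [Fintype.card_fin] at this
  have hg2 : ∑ i, hp (Good (fun y x => col x y = i) (m + 1) (t + 1))
      (Finset.univ : Finset (Fin n)) ≤ n * (n - 1) := by
    have := sum_hp_le (β := Fin n) (fun i : Fin N => Good (fun y x => col x y = i) (m + 1) (t + 1))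
      (by
        rintro i j u v huv ⟨A1, B1, c1, hu1, hv1⟩ ⟨A2, B2, c2, hu2, hv2⟩
        by_contra hij
        exact hcol i j (HasCyc.flip (star (R := fun y x => col x y = i ∨ col x y = j)
          (fun x y h => Or.inl h) (fun x y h => Or.inr h)
          (fun x y h h' => hij (h.symm.trans h')) hk2 c1 c2 huv hu1 hv1 hu2 hv2)))
    rwa [Fintype.card_fin] at this
  rw [← Finset.mul_sum, Finset.sum_add_distrib, Finset.sum_const, ← Finset.mul_sum,
    Finset.sum_add_distrib, Finset.card_univ, Fintype.card_fin, ← Nat.cast_sum, ← Nat.cast_sum,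
    ← Nat.cast_sum, hedge] at hsum
  have hcast : ((n * (n - 1) : ℕ) : ℤ) = n * (n - 1) := by
    rcases Nat.eq_zero_or_pos n with rfl | hn
    · simp
    · push_cast [hn]; ring
  have hg1' : ((∑ i, hp (Good (fun x y => col x y = i) (m + 1) (t + 1))
      (Finset.univ : Finset (Fin n)) : ℕ) : ℤ) ≤ n * (n - 1) := by
    rw [← hcast]; exact_mod_cast hg1
  have hg2' : ((∑ i, hp (Good (fun y x => col x y = i) (m + 1) (t + 1))
      (Finset.univ : Finset (Fin n)) : ℕ) : ℤ) ≤ n * (n - 1) := by
    rw [← hcast]; exact_mod_cast hg2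
  have h3 := mul_le_mul_of_nonneg_left (add_le_add hg1' hg2')
    (by positivity : (0:ℤ) ≤ (m:ℤ) ^ 2)
  simp only [Finset.card_univ, Fintype.card_fin, nsmul_eq_mul] at hsum
  push_cast at hsum h3 ⊢
  nlinarith

end Pool.Agent.MP_52ca01_co
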