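import Pool.Agent.Lib.MP_52ca01_co.Pth

/-!
Spanning alternating paths without a spanning cycle: the structure of the exceptional case.
-/

set_option autoImplicit false

namespace Pool.Agent.MP_52ca01_co

open Finset

variable {α β : Type*} [DecidableEq α]

/-- The incidence relation of a family of finite sets. -/
abbrev Inc (N : β → Finset α) : α → β → Prop := fun x y => x ∈ N y

/-- A path whose vertices of the first kind are exactly those of `A`. -/
structure Full (N : β → Finset α) (A : Finset α) (a b : α) (xs : List α) (ys : List β) :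
    Prop where
  lk : Lk (Inc N) a b xs ys
  nx : xs.Nodup
  ny : ys.Nodup
  mem : ∀ x, x ∈ xs ↔ x ∈ A

namespace Full

variable {N : β → Finset α} {A : Finset α} {a b : α} {xs : List α} {ys : List β}

theorem length_eq (h : Full N A a b xs ys) : xs.length = A.card := by
  rw [← List.toFinset_card_of_nodup h.nx]
  congr 1
  ext x
  rw [List.mem_toFinset, h.mem]

theorem length_ys (h : Full N A a b xs ys) : ys.length + 1 = A.card := by
  rw [← h.length_eq, h.lk.length_eq]

theorem reverse (h : Full N A a b xs ys) : Full N A b a xs.reverse ys.reverse :=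
  ⟨h.lk.reverse, List.nodup_reverse.2 h.nx, List.nodup_reverse.2 h.ny, fun x => by
    rw [List.mem_reverse, h.mem]⟩

end Full

section rot

variable {N : β → Finset α} {A : Finset α} {a b a1 b1 : α} {xs1 xs2 : List α}
  {ys1 ys2 : List β} {y w : β}

omit [DecidableEq α] in
theorem nodup_mid {ys1 ys2 : List β} {w y : β} (hn : (ys1 ++ w :: ys2).Nodup)
    (hy : y ∉ ys1 ++ ys2) : (ys1 ++ y :: ys2).Nodup := by
  rw [List.nodup_middle] at hn ⊢
  exact List.nodup_cons.2 ⟨hy, (List.nodup_cons.1 hn).2⟩

/-- Rotation at the left end. -/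
theorem full_rotL (hx : (xs1 ++ xs2).Nodup) (hA : ∀ x, x ∈ xs1 ++ xs2 ↔ x ∈ A)
    (hy : (ys1 ++ w :: ys2).Nodup) (h1 : Lk (Inc N) a a1 xs1 ys1) (h2 : Lk (Inc N) b1 b xs2 ys2)
    (hyn : y ∉ ys1 ++ ys2) (ha : a ∈ N y) (hb : b1 ∈ N y) :
    Full N A a1 b (xs1.reverse ++ xs2) (ys1.reverse ++ y :: ys2) := by
  refine ⟨h1.reverse.append ha hb h2, ?_, ?_, fun x => ?_⟩
  · rw [List.nodup_append] at hx ⊢
    exact ⟨List.nodup_reverse.2 hx.1, hx.2.1,
      fun x hx1 y hy => hx.2.2 x (List.mem_reverse.1 hx1) y hy⟩
  · have h := nodup_mid hy hyn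
    rw [List.nodup_middle] at h ⊢
    rw [List.nodup_cons, List.nodup_append] at h ⊢
    refine ⟨?_, List.nodup_reverse.2 h.2.1, h.2.2.1,
      fun x hx1 y hy => h.2.2.2 x (List.mem_reverse.1 hx1) y hy⟩
    intro hh
    apply h.1
    rcases List.mem_append.1 hh with hh | hh
    · exact List.mem_append_left _ (List.mem_reverse.1 hh)
    · exact List.mem_append_right _ hh
  · rw [← hA]
    simp

/-- Rotation at the right end. -/
theorem full_rotR (hx : (xs1 ++ xs2).Nodup) (hA : ∀ x, x ∈ xs1 ++ xs2 ↔ x ∈ A)
    (hy : (ys1 ++ w :: ys2).Nodup) (h1 : Lk (Inc N) a a1 xs1 ys1) (h2 : Lk (Inc N) b1 b xs2 ys2)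
    (hyn : y ∉ ys1 ++ ys2) (ha : a1 ∈ N y) (hb : b ∈ N y) :
    Full N A a b1 (xs1 ++ xs2.reverse) (ys1 ++ y :: ys2.reverse) := by
  refine ⟨h1.append ha hb h2.reverse, ?_, ?_, fun x => ?_⟩
  · rw [List.nodup_append] at hx ⊢
    exact ⟨hx.1, List.nodup_reverse.2 hx.2.1,
      fun x hx1 y hy => hx.2.2 x hx1 y (List.mem_reverse.1 hy)⟩
  · have h := nodup_mid hy hyn
    rw [List.nodup_middle] at h ⊢
    rw [List.nodup_cons, List.nodup_append] at h ⊢
    refine ⟨?_, h.2.1, List.nodup_reverse.2 h.2.2.1,
      fun x hx1 y hy => h.2.2.2 x hx1 y (List.mem_reverse.1 hy)⟩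
    intro hh
    apply h.1
    rcases List.mem_append.1 hh with hh | hh
    · exact List.mem_append_left _ hh
    · exact List.mem_append_right _ (List.mem_reverse.1 hh)
  · rw [← hA]
    simp

end rot

/-- No spanning cycle. -/
def NoFullCycle (N : β → Finset α) (A : Finset α) : Prop :=
  ∀ a b xs ys z, Full N A a b xs ys → a ∈ N z → b ∈ N z → z ∈ ys

section

variable {N : β → Finset α} {A : Finset α} {d : ℕ}

theorem partition (hNC : NoFullCycle N A) (hA : A.card + 1 ≤ 2 * d) {a b : α} {xs : List α}
    {ys : List β} {y0 y' : β} (h : Full N A a b xs ys) (hne : y0 ≠ y') (h0 : y0 ∉ ys)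
    (h' : y' ∉ ys) (ha : a ∈ N y0) (hb : b ∈ N y') (s0 : N y0 ⊆ A) (s' : N y' ⊆ A)
    (c0 : d ≤ (N y0).card) (c' : d ≤ (N y').card) :
    (∀ x, x ∈ N y0 ↔ x ∈ A ∧ x ∉ succs (N y') xs) ∧ (N y0).card = d ∧ (N y').card = d ∧
      A.card + 1 = 2 * d ∧ b ∈ succs (N y') xs := by
  have hb0 : b ∉ N y0 := fun hb0 => h0 (hNC a b xs ys y0 h ha hb0)
  have hdis : ∀ x ∈ N y0, x ∉ succs (N y') xs := by
    intro x hx hs
    obtain ⟨a1, w, xs1, xs2, ys1, ys2, e1, e2, g1, g2, g3, g4, g5⟩ := mem_succs h.lk (N y') hs
    subst e1 e2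
    have hF := full_rotL (w := w) h.nx h.mem h.ny g1 g4 (y := y0) (by
      intro hh; apply h0
      simp only [List.mem_append, List.mem_cons] at hh ⊢
      tauto) ha hx
    have := hNC _ _ _ _ y' hF g5 hb
    apply h'
    simp only [List.mem_append, List.mem_cons, List.mem_reverse] at this ⊢
    rcases this with h | h | h
    · exact Or.inl h
    · exact absurd h.symm hne
    · exact Or.inr (Or.inr h)
  have hlen := h.length_eq
  obtain ⟨p1, p2, p3, p4⟩ := compl_succs h.lk h.nx (d := d) (N y') (N y0)
    (fun x hx => (h.mem x).2 (s' hx)) hb c' (fun x hx => (h.mem x).2 (s0 hx)) c0 hdis (by omega)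
  refine ⟨fun x => by rw [p1, h.mem], p2, p3, by omega, ?_⟩
  by_contra hbs
  exact hb0 ((p1 b).2 ⟨h.lk.last_mem, hbs⟩)

/-- All neighbours of the left end of a spanning path have the same neighbourhood. -/
theorem leaf (hNC : NoFullCycle N A) (hA : A.card + 1 ≤ 2 * d)
    (H : ∀ a b xs ys y y', Full N A a b xs ys → y ≠ y' → y ∉ ys → y' ∉ ys → a ∈ N y → b ∈ N y' →
      N y ⊆ A ∧ N y' ⊆ A ∧ d ≤ (N y).card ∧ d ≤ (N y').card)
    {a b : α} {xs : List α} {ys : List β} {y0 y' : β} (h : Full N A a b xs ys) (hne : y0 ≠ y')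
    (h0 : y0 ∉ ys) (h' : y' ∉ ys) (ha : a ∈ N y0) (hb : b ∈ N y') :
    ∀ y, a ∈ N y → N y = N y0 := by
  have part : ∀ {a b : α} {xs : List α} {ys : List β} {y0 y' : β}, Full N A a b xs ys →
      y0 ≠ y' → y0 ∉ ys → y' ∉ ys → a ∈ N y0 → b ∈ N y' →
      (∀ x, x ∈ N y0 ↔ x ∈ A ∧ x ∉ succs (N y') xs) ∧ (N y0).card = d ∧ (N y').card = d ∧
      A.card + 1 = 2 * d ∧ b ∈ succs (N y') xs := by
    intro a b xs ys y0 y' h hne h0 h' ha hb
    obtain ⟨s0, s', c0, c'⟩ := H a b xs ys y0 y' h hne h0 h' ha hb
    exact partition hNC hA h hne h0 h' ha hb s0 s' c0 c'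
  obtain ⟨p1, p2, p3, p4, p5⟩ := part h hne h0 h' ha hb
  have ha' : a ∉ N y' := fun hh => h' (hNC a b xs ys y' h hh hb)
  intro y hy
  have hyy' : y ≠ y' := by rintro rfl; exact ha' hy
  by_cases hys : y ∈ ys
  · obtain ⟨a1, b1, xs1, xs2, ys1, ys2, e1, e2, g1, g2, g3, g4⟩ := h.lk.split_mem hys
    subst e1 e2
    have hny := h.ny
    rw [List.nodup_middle, List.nodup_cons] at hny
    have ha1 : a1 ∉ N y' := by
      intro ha1
      have hF := full_rotR (w := y) h.nx h.mem h.ny g1 g4 (y := y') (by
        intro hh; apply h'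
        simp only [List.mem_append, List.mem_cons] at hh ⊢
        tauto) ha1 hb
      have := hNC _ _ _ _ y hF hy g3
      simp only [List.mem_append, List.mem_cons, List.mem_reverse] at this
      rcases this with h | h | h
      · exact hny.1 (List.mem_append_left _ h)
      · exact hyy' h
      · exact hny.1 (List.mem_append_right _ h)
    have hb1 : b1 ∉ succs (N y') (xs1 ++ xs2) := fun hs =>
      ha1 (mem_of_succs_split _ h.nx g1 g4 hs)
    have hb1' : b1 ∈ N y0 := (p1 b1).2 ⟨(h.mem b1).1 (List.mem_append_right _ g4.head_mem), hb1⟩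
    have h0y : y0 ≠ y := by
      rintro rfl; exact h0 hys
    by_cases ha10 : a1 ∈ N y0
    · -- replace `y` by `y0`
      have hF : Full N A a b (xs1 ++ xs2) (ys1 ++ y0 :: ys2) := by
        refine ⟨g1.append ha10 hb1' g4, h.nx, nodup_mid h.ny (fun hh => h0 ?_), h.mem⟩
        simp only [List.mem_append, List.mem_cons] at hh ⊢
        tauto
      have hyn : y ∉ ys1 ++ y0 :: ys2 := by
        intro hh
        simp only [List.mem_append, List.mem_cons] at hh
        rcases hh with h | h | h
        · exact hny.1 (List.mem_append_left _ h)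
        · exact h0y h.symm
        · exact hny.1 (List.mem_append_right _ h)
      have hyn' : y' ∉ ys1 ++ y0 :: ys2 := by
        intro hh
        simp only [List.mem_append, List.mem_cons] at hh
        rcases hh with h | h | h
        · exact h' (List.mem_append_left _ h)
        · exact hne h.symm
        · exact h' (List.mem_append_right _ (List.mem_cons_of_mem _ h))
      obtain ⟨q1, -, -, -, -⟩ := part hF hyy' hyn hyn' hy hb
      ext x
      rw [q1, p1]
    · -- impossible case
      exfalso
      have ha1A : a1 ∈ A := (h.mem a1).1 (List.mem_append_left _ g1.last_mem)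
      have ha1s : a1 ∈ succs (N y') (xs1 ++ xs2) := by
        by_contra hh
        exact ha10 ((p1 a1).2 ⟨ha1A, hh⟩)
      have ha1a : a1 ≠ a := by
        rintro rfl
        exact ha10 ha
      obtain ⟨a0, w0, xs0, xs3, ys0, ys3, e1, e2, f1, f2, f3, f4⟩ :=
        g1.split_mem_left g1.last_mem ha1a
      -- `xs3 = [a1]`
      have hnx1 : (xs0 ++ xs3).Nodup := by
        rw [← e1]; exact (List.nodup_append.1 h.nx).1
      have hx3 : ys3 = [] ∧ xs3 = [a1] := by
        cases f4 with
        | single => exact ⟨rfl, rfl⟩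
        | cons z k1 k2 k =>
          exfalso
          have : a1 ∉ _ := (List.nodup_cons.1 (List.nodup_append.1 hnx1).2.1).1
          exact this k.last_mem
      obtain ⟨rfl, rfl⟩ := hx3
      subst e1 e2
      have ha0 : a0 ∈ N y' := by
        refine mem_of_succs_split (N y') (xs2 := [a1] ++ xs2) ?_ f1
          (f4.append g2 g3 g4) ?_
        · simpa using h.nx
        · simpa using ha1s
      -- the path `a … a0 y' b … b1 y a1`
      have hL : Lk (Inc N) a a1 (xs0 ++ (xs2.reverse ++ [a1])) (ys0 ++ y' :: (ys2.reverse ++ [y])) :=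
        f1.append ha0 hb (g4.reverse.append g3 g2 (Lk.single a1))
      have hnx := h.nx
      have hnyy := h.ny
      have hxn : (xs0 ++ (xs2.reverse ++ [a1])).Nodup := by
        refine (List.Perm.nodup_iff ?_).1 hnx
        rw [List.append_assoc]
        refine List.Perm.append_left _ ?_
        refine List.perm_append_comm.trans ?_
        exact List.Perm.append_right _ (List.reverse_perm _).symm
      have hyn : (ys0 ++ y' :: (ys2.reverse ++ [y])).Nodup := by
        have h1 : (ys0 ++ [w0] ++ (y :: ys2)).Nodup := by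
          simpa using hnyy
        have h2 : (ys0 ++ (y :: ys2)).Nodup := by
          refine List.Nodup.sublist ?_ h1
          refine List.Sublist.append_right ?_ _
          exact List.sublist_append_left _ _
        have h3 : (y' :: (ys0 ++ (y :: ys2))).Nodup := by
          refine List.nodup_cons.2 ⟨?_, h2⟩
          intro hh
          apply h'
          simp only [List.mem_append, List.mem_cons] at hh ⊢
          tauto
        refine (List.Perm.nodup_iff ?_).1 h3
        refine List.Perm.trans ?_ List.perm_middle.symm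
        refine List.Perm.cons _ ?_
        refine List.Perm.append_left _ ?_
        refine (List.perm_append_comm (l₁ := [y]) (l₂ := ys2)).trans ?_
        exact List.Perm.append_right _ (List.reverse_perm _).symm
      have hF : Full N A a a1 (xs0 ++ (xs2.reverse ++ [a1])) (ys0 ++ y' :: (ys2.reverse ++ [y])) :=
        ⟨hL, hxn, hyn, fun x => by
          rw [← h.mem]
          simp only [List.mem_append, List.mem_reverse, List.mem_singleton]
          tauto⟩
      have hw0y' : w0 ≠ y' := by
        rintro rfl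
        apply h'; simp
      have hw0 : w0 ∉ ys0 ++ y' :: (ys2.reverse ++ [y]) := by
        have h1 : (w0 :: (ys0 ++ y :: ys2)).Nodup := by
          have h2 : (ys0 ++ w0 :: (y :: ys2)).Nodup := by simpa using hnyy
          exact List.nodup_middle.1 h2
        have h3 := (List.nodup_cons.1 h1).1
        intro hh
        simp only [List.mem_append, List.mem_cons, List.mem_reverse, List.mem_singleton,
          List.not_mem_nil, or_false] at hh h3
        tauto
      have hy0n : y0 ∉ ys0 ++ y' :: (ys2.reverse ++ [y]) := by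
        intro hh
        simp only [List.mem_append, List.mem_cons, List.mem_reverse, List.mem_singleton,
          List.not_mem_nil, or_false] at hh h0
        tauto
      have hw0y0 : y0 ≠ w0 := by
        rintro rfl
        apply h0; simp
      obtain ⟨-, -, -, -, q5⟩ := part hF hw0y0 hy0n hw0 ha f3
      have hb1w : b1 ∈ N w0 := by
        have hL1 : Lk (Inc N) a b1 (xs0 ++ xs2.reverse) (ys0 ++ y' :: ys2.reverse) :=
          f1.append ha0 hb g4.reverse
        refine mem_of_succs_split (N w0) (xs1 := xs0 ++ xs2.reverse) (xs2 := [a1]) ?_ hL1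
          (Lk.single a1) ?_
        · simpa using hxn
        · simpa using q5
      -- the spanning cycle
      have hF2 : Full N A a a1 (xs0 ++ (xs2.reverse ++ [a1]))
          (ys0 ++ y' :: (ys2.reverse ++ [w0])) := by
        refine ⟨f1.append ha0 hb (g4.reverse.append hb1w f3 (Lk.single a1)), hxn, ?_, hF.mem⟩
        have h1 : (ys0 ++ w0 :: (y :: ys2)).Nodup := by simpa using hnyy
        have h2 : (ys0 ++ w0 :: ys2).Nodup := by
          refine List.Nodup.sublist ?_ h1
          refine List.Sublist.append_left ?_ _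
          exact List.Sublist.cons_cons _ (List.sublist_cons_self _ _)
        have h3 : (y' :: (ys0 ++ (w0 :: ys2))).Nodup := by
          refine List.nodup_cons.2 ⟨?_, h2⟩
          intro hh
          apply h'
          simp only [List.mem_append, List.mem_cons] at hh ⊢
          tauto
        refine (List.Perm.nodup_iff ?_).1 h3
        refine List.Perm.trans ?_ List.perm_middle.symm
        refine List.Perm.cons _ ?_
        refine List.Perm.append_left _ ?_
        refine (List.perm_append_comm (l₁ := [w0]) (l₂ := ys2)).trans ?_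
        exact List.Perm.append_right _ (List.reverse_perm _).symm
      have := hNC _ _ _ _ y hF2 hy g2
      have h1 : (ys0 ++ w0 :: (y :: ys2)).Nodup := by simpa using hnyy
      simp only [List.mem_append, List.mem_cons, List.mem_reverse, List.mem_singleton,
        List.not_mem_nil, or_false] at this
      simp only [List.nodup_append, List.nodup_cons, List.mem_cons] at h1
      rcases this with g | g | g | g
      · exact h1.2.2 y g y (Or.inr (Or.inl rfl)) rfl
      · exact hyy' g
      · exact h1.2.1.2.1 g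
      · exact h1.2.1.1 (Or.inl g.symm)
  · obtain ⟨q1, -, -, -, -⟩ := part h hyy' hys h' hy hb
    ext x
    rw [q1, p1]

end

end Pool.Agent.MP_52ca01_co
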