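import Pool.Agent.Lib.MP_52ca01_co.Mixed

/-!
Connected bipartite graphs of large minimum degree without long paths contain a leaf block.
-/

set_option autoImplicit false
set_option linter.unusedSectionVars false

namespace Pool.Agent.MP_52ca01_co

open Finset

variable {α β : Type*} [DecidableEq α] [DecidableEq β]

open scoped Classical in
/-- All neighbours of some vertex of `A` have the same neighbourhood, of size `d`. -/
def Leaf (G : α → β → Prop) (d : ℕ) (A : Finset α) : Prop :=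
  ∃ a ∈ A, ∃ S : Finset α, S.card = d ∧ ∀ y, G a y → A.filter (fun x => G x y) = S

open scoped Classical in
theorem caseB {G : α → β → Prop} {d p : ℕ} {A : Finset α} {B : Finset β} (hG : Conn G d A B)
    (hp : p + 1 ≤ 2 * d) (hA : p < A.card) (hB : p < B.card) (hmax : ¬ Mix G (p + 1))
    {a b : α} {xs : List α} {ys : List β} {y0 y' : β} (h : Pth G a b xs ys) (hl : xs.length = p)
    (hne : y0 ≠ y') (h0 : y0 ∉ ys) (h' : y' ∉ ys) (ha : G a y0) (hb : G b y') :
    p + 1 = 2 * d ∧ Leaf G d A := by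
  obtain ⟨N, hN⟩ : ∃ N : β → Finset α, N = fun y => A.filter (fun x => G x y) := ⟨_, rfl⟩
  have hNmem : ∀ x y, x ∈ N y ↔ G x y := by
    intro x y
    rw [hN]
    simp only [Finset.mem_filter]
    exact ⟨fun h => h.2, fun h => ⟨(hG.mem _ _ h).1, h⟩⟩
  have hmono : ∀ x y, Inc N x y → G x y := fun x y h => (hNmem x y).1 h
  have hX : xs.toFinset.card = p := by rw [List.toFinset_card_of_nodup h.nx, hl]
  have hF : Full N xs.toFinset a b xs ys :=
    ⟨h.lk.mono (fun x y hxy => (hNmem x y).2 hxy), h.nx, h.ny, fun x => by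
      rw [List.mem_toFinset]⟩
  have hNC : NoFullCycle N xs.toFinset := by
    intro a b xs' ys z h ha hb
    by_contra hz
    exact noCyc hG hp hA hB hmax (xs := xs') (ys := ys) (z := z) (a := a) (b := b)
      ⟨⟨h.lk.mono hmono, h.nx, h.ny⟩, hz, (hNmem _ _).1 ha, (hNmem _ _).1 hb⟩
      (by rw [h.length_eq, hX])
  have H : ∀ a b xs' ys y y', Full N xs.toFinset a b xs' ys → y ≠ y' → y ∉ ys → y' ∉ ys →
      a ∈ N y → b ∈ N y' →
      N y ⊆ xs.toFinset ∧ N y' ⊆ xs.toFinset ∧ d ≤ (N y).card ∧ d ≤ (N y').card := by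
    intro a b xs' ys y y' h hne hy hy' ha hb
    have hP : Pth G a b xs' ys := ⟨h.lk.mono hmono, h.nx, h.ny⟩
    have hlen : xs'.length = p := by rw [h.length_eq, hX]
    rw [hNmem] at ha hb
    refine ⟨?_, ?_, ?_, ?_⟩
    · intro x hx
      by_contra hxn
      rw [hNmem] at hx
      apply hmax
      refine ⟨x, b, _, _, y', hP.cons (fun hh => hxn ((h.mem x).1 hh)) hy hx ha, ?_, hb,
        by simp [hlen]⟩
      rw [List.mem_cons, not_or]
      exact ⟨hne.symm, hy'⟩
    · intro x hx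
      by_contra hxn
      rw [hNmem] at hx
      apply hmax
      refine ⟨x, a, _, _, y, hP.reverse.cons
        (fun hh => hxn ((h.mem x).1 (List.mem_reverse.1 hh)))
        (fun hh => hy' (List.mem_reverse.1 hh)) hx hb, ?_, ha, by simp [hlen]⟩
      rw [List.mem_cons, not_or, List.mem_reverse]
      exact ⟨hne, hy⟩
    · rw [hN]; exact hG.degB y (hG.mem _ _ ha).2
    · rw [hN]; exact hG.degB y' (hG.mem _ _ hb).2
  have ha' : a ∈ N y0 := (hNmem _ _).2 ha
  have hb' : b ∈ N y' := (hNmem _ _).2 hb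
  obtain ⟨s0, s', k0, k'⟩ := H a b xs ys y0 y' hF hne h0 h' ha' hb'
  obtain ⟨-, p2, -, p4, -⟩ := partition hNC (by omega) hF hne h0 h' ha' hb' s0 s' k0 k'
  have hleaf := leaf (d := d) hNC (by omega) H hF hne h0 h' ha' hb'
  refine ⟨by omega, a, (hG.mem _ _ ha).1, N y0, p2, fun y hy => ?_⟩
  have := hleaf y ((hNmem _ _).2 hy)
  rw [← this, hN]

open scoped Classical in
theorem exotic {G : α → β → Prop} {d p : ℕ} {A : Finset α} {B : Finset β} (hG : Conn G d A B)
    (hp : p + 1 ≤ 2 * d) (hA : p < A.card) (hB : p < B.card) (hmix : Mix G p)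
    (hmax : ¬ Mix G (p + 1)) :
    p + 1 = 2 * d ∧ (Leaf G d A ∨ Leaf (fun y x => G x y) d B) := by
  obtain ⟨a, b, xs, ys, y, h, hy, hby, hl⟩ := hmix
  have hlen := h.length_eq
  by_cases c1 : ∃ y0, G a y0 ∧ y0 ∉ ys ∧ y0 ≠ y
  · obtain ⟨y0, h1, h2, h3⟩ := c1
    obtain ⟨r1, r2⟩ := caseB hG hp hA hB hmax h hl h3 h2 hy h1 hby
    exact ⟨r1, Or.inl r2⟩
  by_cases c2 : ∃ x0, G x0 y ∧ x0 ∉ xs
  · obtain ⟨x0, h1, h2⟩ := c2
    obtain ⟨y1, t, e1, e2, e3, e4⟩ := h.flip hy hby
    subst e1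
    rw [List.mem_cons, not_or] at h2
    obtain ⟨r1, r2⟩ := caseB hG.flip hp hB hA (fun hh => hmax hh.flip) e2
      (by rw [List.length_append]; simp; omega) (y0 := a) (y' := x0) (fun h => h2.1 h.symm) e4 h2.2
      e3 h1
    exact ⟨r1, Or.inr r2⟩
  exfalso
  push Not at c1 c2
  have d2 : d ≤ (A.filter (fun x => G x y)).card := hG.degB y (hG.mem _ _ hby).2
  by_cases hay : G a y
  · exact noCyc hG hp hA hB hmax ⟨h, hy, hay, hby⟩ hl
  · -- `a` has a neighbour
    have haA : a ∈ A := by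
      obtain ⟨y1, t, -, -, e3, -⟩ := h.flip hy hby
      exact (hG.mem _ _ e3).1
    have d1 : d ≤ (B.filter (fun y => G a y)).card := hG.degA a haA
    have hS : ∀ t ∈ B.filter (fun y => G a y), t ∈ ys := by
      intro t ht
      rw [Finset.mem_filter] at ht
      by_contra hn
      have := c1 t ht.2 hn
      subst this
      exact hay ht.2
    have hbN : b ∈ A.filter (fun x => G x y) := Finset.mem_filter.2 ⟨(hG.mem _ _ hby).1, hby⟩
    have e1 := Finset.card_erase_add_one hbN
    obtain ⟨a1, b1, w, xs1, xs2, ys1, ys2, e3, e4, g1, g2, g3, g4, g5, g6⟩ :=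
      h.lk.crossingY h.nx h.ny (B.filter (fun y => G a y)) (A.filter (fun x => G x y)) hS
      (fun t ht => c2 t (Finset.mem_filter.1 ht).2) (by omega)
    rw [Finset.mem_filter] at g5 g6
    have hnx := h.nx
    have hny := h.ny
    subst e3 e4
    obtain ⟨p1, p2, dx, dy, w1, w2⟩ := Pth.of_split hnx hny g1 g4
    simp only [List.mem_append, List.mem_cons, not_or] at hy
    have hP := p1.join p2.reverse (y := y) (fun x h h' => dx x h (List.mem_reverse.1 h'))
      (fun y h h' => dy y h (List.mem_reverse.1 h')) hy.1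
      (fun h => hy.2.2 (List.mem_reverse.1 h)) g5.2 hby
    refine noCyc hG hp hA hB hmax (z := w) ⟨hP, ?_, g6.2, g3⟩ ?_
    · simp only [List.mem_append, List.mem_cons, List.mem_reverse, not_or]
      exact ⟨w1, fun h => hy.2.1 h.symm, w2⟩
    · simp only [List.length_append, List.length_reverse] at hl ⊢
      exact hl

end Pool.Agent.MP_52ca01_co
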