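import Pool.Agent.Lib.MP_52ca01_co.Exc

/-!
Spanning alternating paths.
-/

set_option autoImplicit false
set_option linter.unusedSectionVars false

namespace Pool.Agent.MP_52ca01_co

open Finset

variable {α β : Type*} [DecidableEq α] [DecidableEq β]

theorem exists_fresh {R : α → β → Prop} [DecidableRel R] {B : Finset β} {x : α} {ys : List β}
    (h : ys.length < (B.filter (fun y => R x y)).card) : ∃ y ∈ B, R x y ∧ y ∉ ys := by
  by_contra hc
  push Not at hc
  have h1 : B.filter (fun y => R x y) ⊆ ys.toFinset := by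
    intro y hy
    rw [Finset.mem_filter] at hy
    rw [List.mem_toFinset]
    exact hc y hy.1 hy.2
  have h2 := Finset.card_le_card h1
  have h3 := List.toFinset_card_le ys
  omega

/-- If all but few neighbours are on a list of distinct vertices, all the list is adjacent. -/
theorem all_adj {R : α → β → Prop} [DecidableRel R] {B : Finset β} {x : α} {ys : List β}
    (hn : ys.Nodup) (h : ys.length ≤ (B.filter (fun y => R x y)).card)
    (hf : ∀ y ∈ B, R x y → y ∈ ys) : ∀ y ∈ ys, R x y := by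
  have h1 : B.filter (fun y => R x y) ⊆ ys.toFinset := by
    intro y hy
    rw [Finset.mem_filter] at hy
    rw [List.mem_toFinset]
    exact hf y hy.1 hy.2
  have h2 : B.filter (fun y => R x y) = ys.toFinset := by
    apply Finset.eq_of_subset_of_card_le h1
    rw [List.toFinset_card_of_nodup hn]
    exact h
  intro y hy
  have : y ∈ B.filter (fun y => R x y) := by rw [h2, List.mem_toFinset]; exact hy
  exact (Finset.mem_filter.1 this).2

section closing

variable {N : β → Finset α} {a b : α} {xs : List α} {ys : List β} {y y' : β}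

/-- Closing a path to a cycle. -/
theorem Pth.closing (h : Pth (Inc N) a b xs ys) (hy : y ∉ ys) (hy' : y' ∉ ys) (ha : a ∈ N y)
    (hb : b ∈ N y') (h1 : ∀ x ∈ N y, x ∈ xs) (h2 : ∀ x ∈ N y', x ∈ xs)
    (hc : xs.length + 2 ≤ (N y).card + (N y').card) :
    ∃ a' b' xs' ys' z, Cyc (Inc N) a' b' xs' ys' z ∧ (∀ x, x ∈ xs' ↔ x ∈ xs) ∧
      xs'.length = xs.length := by
  by_cases hby : b ∈ N y
  · exact ⟨a, b, xs, ys, y, ⟨h, hy, ha, hby⟩, fun _ => Iff.rfl, rfl⟩
  · have hne : y ≠ y' := by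
      rintro rfl; exact hby hb
    have e1 := Finset.card_erase_add_one ha
    have e2 := Finset.card_erase_add_one hb
    obtain ⟨a1, b1, w, xs1, xs2, ys1, ys2, e3, e4, g1, g2, g3, g4, g5, g6⟩ :=
      h.lk.crossing h.nx (N y) (N y') h1 h2 (by omega)
    have hnx := h.nx
    have hny := h.ny
    subst e3 e4
    obtain ⟨p1, p2, dx, dy, w1, w2⟩ := Pth.of_split hnx hny g1 g4
    simp only [List.mem_append, List.mem_cons, not_or] at hy hy'
    have hP := p1.join p2.reverse (y := y') (fun x h h' => dx x h (List.mem_reverse.1 h'))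
      (fun y h h' => dy y h (List.mem_reverse.1 h')) hy'.1
      (fun h => hy'.2.2 (List.mem_reverse.1 h)) g5 hb
    refine ⟨a, b1, _, _, y, ⟨hP, ?_, ha, g6⟩, fun x => ?_, ?_⟩
    · simp only [List.mem_append, List.mem_cons, List.mem_reverse, not_or]
      exact ⟨hy.1, hne, hy.2.2⟩
    · simp only [List.mem_append, List.mem_reverse]
    · simp only [List.length_append, List.length_reverse]

end closing

section ext

variable {R : α → β → Prop} {a b x x' : α} {xs : List α} {ys : List β} {y z : β}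

/-- Extend a cycle through a vertex `y` on it. -/
theorem Cyc.ext1 (h : Cyc R a b xs ys z) (hy : y ∈ z :: ys) (hx : x ∉ xs) (hxy : R x y) :
    ∃ b' xs' ys', Pth R x b' xs' ys' ∧ (∀ t, t ∈ xs' ↔ t ∈ x :: xs) ∧
      xs'.length = xs.length + 1 ∧ (∀ t, t ∈ ys' ↔ t ∈ z :: ys) := by
  obtain ⟨a', b', xs', ys', h1, h2, h3, h4⟩ := h.rot_y' hy
  refine ⟨b', x :: xs', y :: ys', h1.pth.cons (fun hh => hx ((h2 x).1 hh)) h1.nz hxy h1.la,
    fun t => ?_, by simp [h4], h3⟩
  simp only [List.mem_cons, h2]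

/-- Extend a cycle through a vertex `y` not on it. -/
theorem Cyc.ext2 (h : Cyc R a b xs ys z) (hy : y ∉ z :: ys) (hx' : x' ∈ xs) (hx : x ∉ xs)
    (hxy : R x y) (hxy' : R x' y) :
    ∃ b' xs' ys', Pth R x b' xs' ys' ∧ (∀ t, t ∈ xs' ↔ t ∈ x :: xs) ∧
      xs'.length = xs.length + 1 := by
  obtain ⟨b', xs', ys', z', h1, h2, h3, h4⟩ := h.rot_x hx'
  refine ⟨b', x :: xs', y :: ys', h1.pth.cons (fun hh => hx ((h2 x).1 hh)) ?_ hxy hxy',
    fun t => ?_, by simp [h4]⟩
  · intro hh
    exact hy ((h3 y).1 (List.mem_cons_of_mem _ hh))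
  · simp only [List.mem_cons, h2]

end ext

section full

variable {N : β → Finset α} {A : Finset α} {B : Finset β} {d : ℕ}

/-- Extend a cycle by one vertex. -/
theorem Cyc.ext (hB : ∀ y, (N y).Nonempty → y ∈ B ∧ N y ⊆ A ∧ d ≤ (N y).card)
    (hd : A.card + 1 ≤ 2 * d) (hdeg : ∀ x ∈ A, A.card ≤ (B.filter (fun y => x ∈ N y)).card + 1)
    {a b : α} {xs : List α} {ys : List β} {z : β} (h : Cyc (Inc N) a b xs ys z)
    (hA : ∀ x ∈ xs, x ∈ A) (hl : xs.length < A.card) :
    ∃ a' b' xs' ys', Pth (Inc N) a' b' xs' ys' ∧ (∀ x ∈ xs', x ∈ A) ∧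
      xs'.length = xs.length + 1 := by
  by_cases hc : ∃ y ∈ z :: ys, ∃ x ∈ N y, x ∉ xs
  · obtain ⟨y, hy, x, hx, hxn⟩ := hc
    obtain ⟨b', xs', ys', h1, h2, h3, -⟩ := h.ext1 hy hxn hx
    have hxA : x ∈ A := (hB y ⟨x, hx⟩).2.1 hx
    refine ⟨x, b', xs', ys', h1, fun t ht => ?_, h3⟩
    rcases List.mem_cons.1 ((h2 t).1 ht) with rfl | ht
    · exact hxA
    · exact hA t ht
  · push Not at hc
    -- the closing vertex has all its neighbours on the cycle
    have hz : N z ⊆ xs.toFinset := fun x hx =>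
      List.mem_toFinset.2 (hc z List.mem_cons_self x hx)
    have hzc : d ≤ (N z).card := (hB z ⟨a, h.la⟩).2.2
    have hzc' := Finset.card_le_card hz
    have hq : xs.toFinset.card = xs.length := List.toFinset_card_of_nodup h.pth.nx
    obtain ⟨x, hxA, hxn⟩ : ∃ x ∈ A, x ∉ xs.toFinset := by
      apply Finset.exists_mem_notMem_of_card_lt_card
      omega
    rw [List.mem_toFinset] at hxn
    have hpos : 0 < (B.filter (fun y => x ∈ N y)).card := by
      have := hdeg x hxA
      have h1 : 1 ≤ xs.length := by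
        have := h.pth.length_eq
        omega
      omega
    obtain ⟨w, hw⟩ := Finset.card_pos.1 hpos
    rw [Finset.mem_filter] at hw
    obtain ⟨-, hwA, hwc⟩ := hB w ⟨x, hw.2⟩
    have hwn : w ∉ z :: ys := fun hh => hxn (hc w hh x hw.2)
    -- a neighbour of `w` on the cycle
    obtain ⟨x', hx', hx'w⟩ : ∃ x' ∈ xs, x' ∈ N w := by
      by_contra hcon
      push Not at hcon
      have hdisj : Disjoint (N w) xs.toFinset := by
        rw [Finset.disjoint_left]
        intro t ht hts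
        exact hcon t (List.mem_toFinset.1 hts) ht
      have h3 := Finset.card_union_of_disjoint hdisj
      have h4 : N w ∪ xs.toFinset ⊆ A := by
        apply Finset.union_subset hwA
        intro t ht
        exact hA t (List.mem_toFinset.1 ht)
      have h5 := Finset.card_le_card h4
      omega
    obtain ⟨b', xs', ys', h1, h2, h3⟩ := h.ext2 hwn hx' hxn hw.2 hx'w
    refine ⟨x, b', xs', ys', h1, fun t ht => ?_, h3⟩
    rcases List.mem_cons.1 ((h2 t).1 ht) with rfl | ht
    · exact hxA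
    · exact hA t ht

/-- One more vertex. -/
theorem Pth.ext (hB : ∀ y, (N y).Nonempty → y ∈ B ∧ N y ⊆ A ∧ d ≤ (N y).card)
    (hd : A.card + 1 ≤ 2 * d) (hdeg : ∀ x ∈ A, A.card ≤ (B.filter (fun y => x ∈ N y)).card + 1)
    {a b : α} {xs : List α} {ys : List β} (h : Pth (Inc N) a b xs ys)
    (hA : ∀ x ∈ xs, x ∈ A) (hl : xs.length < A.card) :
    ∃ a' b' xs' ys', Pth (Inc N) a' b' xs' ys' ∧ (∀ x ∈ xs', x ∈ A) ∧
      xs'.length = xs.length + 1 := by
  have haA := hA a h.lk.head_mem
  have hbA := hA b h.lk.last_mem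
  have hlen := h.length_eq
  obtain ⟨y, -, hay, hyn⟩ := exists_fresh (R := fun x y => x ∈ N y) (B := B) (x := a) (ys := ys)
    (by have := hdeg a haA; omega)
  obtain ⟨y', -, hby', hyn'⟩ := exists_fresh (R := fun x y => x ∈ N y) (B := B) (x := b) (ys := ys)
    (by have := hdeg b hbA; omega)
  by_cases h1 : ∀ x ∈ N y, x ∈ xs
  · by_cases h2 : ∀ x ∈ N y', x ∈ xs
    · obtain ⟨a', b', xs', ys', z, g1, g2, g3⟩ := h.closing hyn hyn' hay hby' h1 h2 (by
        have := (hB y ⟨a, hay⟩).2.2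
        have := (hB y' ⟨b, hby'⟩).2.2
        omega)
      obtain ⟨a2, b2, xs2, ys2, k1, k2, k3⟩ := g1.ext hB hd hdeg
        (fun x hx => hA x ((g2 x).1 hx)) (by omega)
      exact ⟨a2, b2, xs2, ys2, k1, k2, by omega⟩
    · push Not at h2
      obtain ⟨x, hx, hxn⟩ := h2
      refine ⟨x, a, x :: xs.reverse, y' :: ys.reverse,
        h.reverse.cons (fun hh => hxn (List.mem_reverse.1 hh))
          (fun hh => hyn' (List.mem_reverse.1 hh)) hx hby', fun t ht => ?_, by simp⟩
      rcases List.mem_cons.1 ht with rfl | ht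
      · exact (hB y' ⟨t, hx⟩).2.1 hx
      · exact hA t (List.mem_reverse.1 ht)
  · push Not at h1
    obtain ⟨x, hx, hxn⟩ := h1
    refine ⟨x, b, x :: xs, y :: ys, h.cons hxn hyn hx hay, fun t ht => ?_, by simp⟩
    rcases List.mem_cons.1 ht with rfl | ht
    · exact (hB y ⟨t, hx⟩).2.1 hx
    · exact hA t ht

/-- A spanning path exists. -/
theorem exists_full (hB : ∀ y, (N y).Nonempty → y ∈ B ∧ N y ⊆ A ∧ d ≤ (N y).card)
    (hd : A.card + 1 ≤ 2 * d) (hdeg : ∀ x ∈ A, A.card ≤ (B.filter (fun y => x ∈ N y)).card + 1)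
    (hA : A.Nonempty) : ∃ a b xs ys, Full N A a b xs ys := by
  have key : ∀ q, q + 1 ≤ A.card → ∃ a b xs ys, Pth (Inc N) a b xs ys ∧ (∀ x ∈ xs, x ∈ A) ∧
      xs.length = q + 1 := by
    intro q
    induction q with
    | zero =>
      intro _
      obtain ⟨a, ha⟩ := hA
      exact ⟨a, a, [a], [], Pth.single a, by simpa using ha, rfl⟩
    | succ q ih =>
      intro hq
      obtain ⟨a, b, xs, ys, h1, h2, h3⟩ := ih (by omega)
      obtain ⟨a2, b2, xs2, ys2, k1, k2, k3⟩ := h1.ext hB hd hdeg h2 (by omega)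
      exact ⟨a2, b2, xs2, ys2, k1, k2, by omega⟩
  have hpos := Finset.card_pos.2 hA
  obtain ⟨a, b, xs, ys, h1, h2, h3⟩ := key (A.card - 1) (by omega)
  refine ⟨a, b, xs, ys, h1.lk, h1.nx, h1.ny, fun x => ⟨h2 x, ?_⟩⟩
  have h4 : xs.toFinset = A := by
    apply Finset.eq_of_subset_of_card_le
    · intro t ht; exact h2 t (List.mem_toFinset.1 ht)
    · rw [List.toFinset_card_of_nodup h1.nx]; omega
  intro hx
  rw [← h4, List.mem_toFinset] at hx
  exact hx

end full

end Pool.Agent.MP_52ca01_co
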