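import Pool.Agent.Lib.MP_52ca01_co.Ham

/-!
Spanning alternating paths with prescribed sets for the ends.
-/

set_option autoImplicit false
set_option linter.unusedSectionVars false

namespace Pool.Agent.MP_52ca01_co

open Finset

variable {α β : Type*} [DecidableEq α] [DecidableEq β]
variable {N : β → Finset α} {A : Finset α} {B : Finset β} {d : ℕ}

namespace Full

variable {a b x : α} {xs : List α} {ys : List β} {y y' : β}

/-- Split just after `x`. -/
theorem split_after (h : Full N A a b xs ys) (hx : x ∈ A) (hxb : x ≠ b) :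
    ∃ b1 w xs1 xs2 ys1 ys2, xs = xs1 ++ xs2 ∧ ys = ys1 ++ w :: ys2 ∧
      Lk (Inc N) a x xs1 ys1 ∧ x ∈ N w ∧ b1 ∈ N w ∧ Lk (Inc N) b1 b xs2 ys2 := by
  have ha : a ∈ A := (h.mem a).1 h.lk.head_mem
  have e1 := Finset.card_erase_add_one ha
  obtain ⟨a1, b1, w, xs1, xs2, ys1, ys2, e3, e4, g1, g2, g3, g4, g5, g6⟩ :=
      h.lk.crossing h.nx A {x} (fun t ht => (h.mem t).2 ht)
      (fun t ht => by rw [Finset.mem_singleton] at ht; rw [ht]; exact (h.mem x).2 hx)
      (by rw [h.length_eq, Finset.erase_eq_of_notMem (s := {x})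
            (by rw [Finset.mem_singleton]; exact fun h => hxb h.symm), Finset.card_singleton]
          omega)
  rw [Finset.mem_singleton] at g5
  subst g5
  exact ⟨b1, w, xs1, xs2, ys1, ys2, e3, e4, g1, g2, g3, g4⟩

/-- If the left end is adjacent to all the vertices `ys`, everything but `b` can be made the
left end. -/
theorem move_left (h : Full N A a b xs ys) (hall : ∀ y ∈ ys, a ∈ N y) (hx : x ∈ A)
    (hxb : x ≠ b) : ∃ xs' ys', Full N A x b xs' ys' ∧ (∀ y, y ∈ ys' ↔ y ∈ ys) := by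
  obtain ⟨b1, w, xs1, xs2, ys1, ys2, e3, e4, g1, g2, g3, g4⟩ := h.split_after hx hxb
  have hny := h.ny
  have hnx := h.nx
  have hmem := h.mem
  subst e3 e4
  have hw : w ∉ ys1 ++ ys2 := (List.nodup_cons.1 (List.nodup_middle.1 hny)).1
  refine ⟨_, _, full_rotL hnx hmem hny g1 g4 hw (hall w (by simp)) g3, fun y => ?_⟩
  simp

theorem exists_left (hB : ∀ y, (N y).Nonempty → y ∈ B ∧ N y ⊆ A ∧ d ≤ (N y).card)
    (hd : A.card + 1 ≤ 2 * d) (hdeg : ∀ x ∈ A, A.card ≤ (B.filter (fun y => x ∈ N y)).card + 1)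
    {U : Finset α} (hU : U ⊆ A) (hUd : d ≤ U.card) (h : Full N A a b xs ys) (hb : b ∉ U) :
    ∃ a' xs' ys', Full N A a' b xs' ys' ∧ a' ∈ U := by
  have haA := (h.mem a).1 h.lk.head_mem
  by_cases hf : ∃ y, a ∈ N y ∧ y ∉ ys
  · obtain ⟨y, hay, hyn⟩ := hf
    obtain ⟨-, hyA, hyc⟩ := hB y ⟨a, hay⟩
    have e1 := Finset.card_erase_add_one hay
    obtain ⟨a1, b1, w, xs1, xs2, ys1, ys2, e3, e4, g1, g2, g3, g4, g5, g6⟩ :=
      h.lk.crossing h.nx (N y) U (fun t ht => (h.mem t).2 (hyA ht))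
      (fun t ht => (h.mem t).2 (hU ht))
      (by rw [h.length_eq, Finset.erase_eq_of_notMem (s := U) hb]; omega)
    have hny := h.ny
    have hnx := h.nx
    have hmem := h.mem
    subst e3 e4
    refine ⟨a1, _, _, full_rotL hnx hmem hny g1 g4 (y := y) ?_ hay g6, g5⟩
    intro hh
    apply hyn
    simp only [List.mem_append, List.mem_cons] at hh ⊢
    tauto
  · push Not at hf
    have hall : ∀ y ∈ ys, a ∈ N y := by
      refine all_adj (R := fun x y => x ∈ N y) (B := B) h.ny ?_ (fun y _ hy => hf y hy)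
      have := hdeg a haA
      have := h.length_ys
      omega
    have hUpos : 0 < U.card := by omega
    obtain ⟨x, hx⟩ := Finset.card_pos.1 hUpos
    have hxb : x ≠ b := by rintro rfl; exact hb hx
    obtain ⟨xs', ys', h', -⟩ := h.move_left hall (hU hx) hxb
    exact ⟨x, xs', ys', h', hx⟩

/-- If the right end cannot be moved into `V`, then it has a new neighbour. -/
theorem fresh_right (hd : A.card + 1 ≤ 2 * d)
    (hdeg : ∀ x ∈ A, A.card ≤ (B.filter (fun y => x ∈ N y)).card + 1)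
    {U V : Finset α} (hV : V ⊆ A) (hVd : d ≤ V.card)
    (hno : ∀ a b xs ys, Full N A a b xs ys → a ∈ U → b ∉ V)
    (h : Full N A a b xs ys) (ha : a ∈ U) : ∃ y, b ∈ N y ∧ y ∉ ys := by
  by_contra hf
  push Not at hf
  have hbA := (h.mem b).1 h.lk.last_mem
  have hall : ∀ y ∈ ys, b ∈ N y := by
    refine all_adj (R := fun x y => x ∈ N y) (B := B) h.ny ?_ (fun y _ hy => hf y hy)
    have := hdeg b hbA
    have := h.length_ys
    omega
  have hbV := hno a b xs ys h ha
  have hVpos : 0 < V.card := by omega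
  obtain ⟨x, hx⟩ := Finset.card_pos.1 hVpos
  -- every element of `V` is `a`
  have hVa : ∀ x ∈ V, x = a := by
    intro x hx
    by_contra hxa
    obtain ⟨xs', ys', h', -⟩ := h.reverse.move_left
      (fun y hy => hall y (List.mem_reverse.1 hy)) (hV hx) hxa
    exact hno _ _ _ _ h'.reverse ha hx
  have hV1 : V.card ≤ 1 := by
    apply Finset.card_le_one.2
    intro s hs t ht
    rw [hVa s hs, hVa t ht]
  have hA1 : A.card ≤ 1 := by omega
  have : a = b := Finset.card_le_one.1 hA1 a ((h.mem a).1 h.lk.head_mem) b hbA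
  rw [hVa x hx, this] at hx
  exact hbV hx

theorem right_compl (hB : ∀ y, (N y).Nonempty → y ∈ B ∧ N y ⊆ A ∧ d ≤ (N y).card)
    (hd : A.card + 1 ≤ 2 * d)
    {U V : Finset α} (hV : V ⊆ A) (hVd : d ≤ V.card)
    (hno : ∀ a b xs ys, Full N A a b xs ys → a ∈ U → b ∉ V)
    (h : Full N A a b xs ys) (ha : a ∈ U) (hb : b ∈ N y) (hy : y ∉ ys) :
    (∀ x, x ∈ V ↔ x ∈ xs ∧ x ∉ succs (N y) xs) ∧ V.card = d ∧ (N y).card = d ∧
      A.card + 1 = 2 * d := by
  obtain ⟨-, hyA, hyc⟩ := hB y ⟨b, hb⟩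
  have hlen := h.length_eq
  obtain ⟨p1, p2, p3, p4⟩ := compl_succs h.lk h.nx (d := d) (N y) V
    (fun x hx => (h.mem x).2 (hyA hx)) hb hyc (fun x hx => (h.mem x).2 (hV hx)) hVd
    (by
      intro x hx hs
      obtain ⟨a1, w, xs1, xs2, ys1, ys2, e1, e2, g1, g2, g3, g4, g5⟩ := mem_succs h.lk (N y) hs
      have hny := h.ny
      have hnx := h.nx
      have hmem := h.mem
      subst e1 e2
      refine hno _ _ _ _ (full_rotR hnx hmem hny g1 g4 (y := y) ?_ g5 hb) ha hx
      intro hh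
      apply hy
      simp only [List.mem_append, List.mem_cons] at hh ⊢
      tauto) (by omega)
  exact ⟨p1, p2, p3, by omega⟩

theorem head_not_succs (h : Full N A a b xs ys) (T : Finset α) : a ∉ succs T xs := by
  intro hh
  obtain ⟨t, rfl⟩ := h.lk.exists_eq_cons
  have := (succs_sublist T (a :: t)).subset hh
  exact (List.nodup_cons.1 h.nx).1 this

end Full

/-- Spanning paths with the ends in two given large sets, and the exceptional case. -/
theorem lemma_M (hB : ∀ y, (N y).Nonempty → y ∈ B ∧ N y ⊆ A ∧ d ≤ (N y).card)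
    (hd : A.card + 1 ≤ 2 * d) (hdeg : ∀ x ∈ A, A.card ≤ (B.filter (fun y => x ∈ N y)).card + 1)
    (hA : A.Nonempty) {U V : Finset α} (hU : U ⊆ A) (hV : V ⊆ A) (hUd : d ≤ U.card)
    (hVd : d ≤ V.card) :
    (∃ a b xs ys, Full N A a b xs ys ∧ a ∈ U ∧ b ∈ V) ∨
    (A.card + 1 = 2 * d ∧ 2 ≤ d ∧ U = V ∧ U.card = d ∧ ∃ x ∈ U, ∀ y, x ∈ N y → N y = U) := by
  by_contra hcon
  rw [not_or] at hcon
  obtain ⟨hno0, hexc⟩ := hcon
  have hno : ∀ a b xs ys, Full N A a b xs ys → a ∈ U → b ∉ V :=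
    fun a b xs ys h ha hb => hno0 ⟨a, b, xs, ys, h, ha, hb⟩
  have hno' : ∀ a b xs ys, Full N A a b xs ys → a ∈ V → b ∉ U :=
    fun a b xs ys h ha hb => hno0 ⟨b, a, _, _, h.reverse, hb, ha⟩
  -- a spanning path with the left end in `U`
  obtain ⟨a, b, xs, ys, h, ha⟩ : ∃ a b xs ys, Full N A a b xs ys ∧ a ∈ U := by
    obtain ⟨a, b, xs, ys, h⟩ := exists_full hB hd hdeg hA
    by_cases hb : b ∈ U
    · exact ⟨b, a, _, _, h.reverse, hb⟩
    · obtain ⟨a', xs', ys', h', ha'⟩ := h.exists_left hB hd hdeg hU hUd hb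
      exact ⟨a', b, xs', ys', h', ha'⟩
  obtain ⟨y', hb', hy'⟩ := h.fresh_right hd hdeg hV hVd hno ha
  obtain ⟨v1, v2, v3, v4⟩ := h.right_compl hB hd hV hVd hno ha hb' hy'
  have haV : a ∈ V := (v1 a).2 ⟨h.lk.head_mem, h.head_not_succs _⟩
  obtain ⟨u1, u2, -, -⟩ := h.right_compl hB hd hU hUd hno' haV hb' hy'
  have hUV : U = V := by
    ext x
    rw [u1, v1]
  subst hUV
  have hbU := hno a b xs ys h ha
  have hab : a ≠ b := by rintro rfl; exact hbU ha
  have hA2 : 2 ≤ A.card := by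
    have h1 : ({a, b} : Finset α) ⊆ A := by
      intro t ht
      rw [Finset.mem_insert, Finset.mem_singleton] at ht
      rcases ht with rfl | rfl
      · exact hU ha
      · exact (h.mem t).1 h.lk.last_mem
    have := Finset.card_le_card h1
    rw [Finset.card_pair hab] at this
    exact this
  -- there is no spanning cycle
  have hNC : NoFullCycle N A := by
    intro a b xs ys z h hza hzb
    by_contra hz
    have hnot : ¬ (a ∈ U ∧ b ∈ U) := fun hh => hno a b xs ys h hh.1 hh.2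
    have hc : xs.length ≤ (U.erase a).card + (U.erase b).card := by
      have e1 : U.card - 1 ≤ (U.erase a).card := Finset.pred_card_le_card_erase
      have e2 : U.card - 1 ≤ (U.erase b).card := Finset.pred_card_le_card_erase
      have e3 : a ∉ U → (U.erase a).card = U.card := fun h => by
        rw [Finset.erase_eq_of_notMem h]
      have e4 : b ∉ U → (U.erase b).card = U.card := fun h => by
        rw [Finset.erase_eq_of_notMem h]
      have e5 := h.length_eq
      by_cases ha : a ∈ U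
      · have hb : b ∉ U := fun hb => hnot ⟨ha, hb⟩
        have := e4 hb
        omega
      · have := e3 ha
        omega
    obtain ⟨a1, b1, w, xs1, xs2, ys1, ys2, e3, e4, g1, g2, g3, g4, g5, g6⟩ :=
      h.lk.crossing h.nx U U (fun t ht => (h.mem t).2 (hU ht))
      (fun t ht => (h.mem t).2 (hU ht)) hc
    have hny := h.ny
    have hnx := h.nx
    have hmem := h.mem
    subst e3 e4
    have hcyc := Cyc.of_split hnx hny g1 g4 hz hza hzb g2 g3
    refine hno b1 a1 _ _ ⟨hcyc.pth.lk, hcyc.pth.nx, hcyc.pth.ny, fun x => ?_⟩ g6 g5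
    rw [← hmem x]
    simp only [List.mem_append]
    tauto
  -- a new neighbour of `a`
  obtain ⟨y0, ha0, hy0⟩ : ∃ y, a ∈ N y ∧ y ∉ ys := by
    by_contra hf
    push Not at hf
    have hall : ∀ y ∈ ys, a ∈ N y := by
      refine all_adj (R := fun x y => x ∈ N y) (B := B) h.ny ?_ (fun y _ hy => hf y hy)
      have := hdeg a (hU ha)
      have := h.length_ys
      omega
    obtain ⟨x, hx, hxb⟩ : ∃ x ∈ N y', x ≠ b := by
      by_contra hcon
      push Not at hcon
      have : (N y').card ≤ 1 := by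
        apply Finset.card_le_one.2
        intro s hs t ht
        rw [hcon s hs, hcon t ht]
      omega
    obtain ⟨xs', ys', h', hm⟩ := h.move_left hall ((hB y' ⟨b, hb'⟩).2.1 hx) hxb
    exact hy' ((hm y').1 (hNC _ _ _ _ y' h' hx hb'))
  have hne : y0 ≠ y' := by
    rintro rfl
    exact hy0 (hNC _ _ _ _ y0 h ha0 hb')
  have hleaf := leaf (d := d) hNC hd (fun a b xs ys y y' h hne h1 h2 h3 h4 =>
    ⟨(hB y ⟨a, h3⟩).2.1, (hB y' ⟨b, h4⟩).2.1, (hB y ⟨a, h3⟩).2.2, (hB y' ⟨b, h4⟩).2.2⟩)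
    h hne hy0 hy' ha0 hb'
  obtain ⟨p1, -⟩ := partition hNC hd h hne hy0 hy' ha0 hb' (hB y0 ⟨a, ha0⟩).2.1
    (hB y' ⟨b, hb'⟩).2.1 (hB y0 ⟨a, ha0⟩).2.2 (hB y' ⟨b, hb'⟩).2.2
  have hNU : N y0 = U := by
    ext x
    rw [p1, v1, h.mem]
  exact hexc ⟨v4, by omega, rfl, u2, a, ha, fun y hy => by rw [hleaf y hy, hNU]⟩

end Pool.Agent.MP_52ca01_co
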