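import Mathlib

/-!
Alternating paths in a bipartite graph given by a relation `R : α → β → Prop`.
-/

set_option autoImplicit false

namespace Pool.Agent.MP_52ca01_co

open Finset

variable {α β : Type*}

/-- `Lk R a b xs ys`: the alternating path `x₁ y₁ x₂ y₂ … x_q` with `xs = [x₁, …, x_q]`,
`ys = [y₁, …, y_{q-1}]`, `a = x₁`, `b = x_q`; consecutive elements are related by `R`. -/
inductive Lk (R : α → β → Prop) : α → α → List α → List β → Prop
  | single (a : α) : Lk R a a [a] []
  | cons {a a' b : α} {xs : List α} {ys : List β} (y : β) (h1 : R a y) (h2 : R a' y)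
      (h : Lk R a' b xs ys) : Lk R a b (a :: xs) (y :: ys)

namespace Lk

variable {R R' : α → β → Prop} {a b a' b' : α} {xs xs' : List α} {ys ys' : List β} {y : β}

theorem mono (hR : ∀ x y, R x y → R' x y) (h : Lk R a b xs ys) : Lk R' a b xs ys := by
  induction h with
  | single a => exact single a
  | cons y h1 h2 _ ih => exact cons y (hR _ _ h1) (hR _ _ h2) ih

theorem length_eq (h : Lk R a b xs ys) : xs.length = ys.length + 1 := by
  induction h with
  | single a => simp
  | cons y h1 h2 _ ih => simp [ih]

theorem head_mem (h : Lk R a b xs ys) : a ∈ xs := by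
  cases h <;> simp

theorem last_mem (h : Lk R a b xs ys) : b ∈ xs := by
  induction h with
  | single a => simp
  | cons y h1 h2 _ ih => exact List.mem_cons_of_mem _ ih

theorem exists_eq_cons (h : Lk R a b xs ys) : ∃ t, xs = a :: t := by
  cases h <;> simp

theorem append (h : Lk R a b xs ys) (h1 : R b y) (h2 : R a' y) (h' : Lk R a' b' xs' ys') :
    Lk R a b' (xs ++ xs') (ys ++ y :: ys') := by
  induction h with
  | single a => exact cons y h1 h2 h'
  | cons y0 g1 g2 _ ih => exact cons y0 g1 g2 (ih h1)

theorem reverse (h : Lk R a b xs ys) : Lk R b a xs.reverse ys.reverse := by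
  induction h with
  | single a => exact single a
  | cons y h1 h2 _ ih =>
    rw [List.reverse_cons, List.reverse_cons]
    exact ih.append h2 h1 (single _)

theorem rel_of_mem (h : Lk R a b xs ys) (hy : y ∈ ys) : ∃ x ∈ xs, R x y := by
  induction h with
  | single a => simp at hy
  | cons y0 h1 h2 _ ih =>
    rcases List.mem_cons.1 hy with rfl | hy
    · exact ⟨_, List.mem_cons_self, h1⟩
    · obtain ⟨x, hx, hr⟩ := ih hy
      exact ⟨x, List.mem_cons_of_mem _ hx, hr⟩

/-- Split a path at a vertex of the second kind. -/
theorem split_mem (h : Lk R a b xs ys) (hy : y ∈ ys) :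
    ∃ a1 b1 xs1 xs2 ys1 ys2, xs = xs1 ++ xs2 ∧ ys = ys1 ++ y :: ys2 ∧
      Lk R a a1 xs1 ys1 ∧ R a1 y ∧ R b1 y ∧ Lk R b1 b xs2 ys2 := by
  induction h with
  | single a => simp at hy
  | @cons a a' b xs ys y0 h1 h2 h ih =>
    rcases List.mem_cons.1 hy with rfl | hy
    · exact ⟨a, a', [a], xs, [], ys, rfl, rfl, single a, h1, h2, h⟩
    · obtain ⟨a1, b1, xs1, xs2, ys1, ys2, e1, e2, g1, g2, g3, g4⟩ := ih hy
      exact ⟨a1, b1, a :: xs1, xs2, y0 :: ys1, ys2, by rw [e1]; rfl, by rw [e2]; rfl,
        cons y0 h1 h2 g1, g2, g3, g4⟩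

/-- Split a path just before a vertex of the first kind which is not the first one. -/
theorem split_mem_left (h : Lk R a b xs ys) {x : α} (hx : x ∈ xs) (hxa : x ≠ a) :
    ∃ a1 w xs1 xs2 ys1 ys2, xs = xs1 ++ xs2 ∧ ys = ys1 ++ w :: ys2 ∧
      Lk R a a1 xs1 ys1 ∧ R a1 w ∧ R x w ∧ Lk R x b xs2 ys2 := by
  induction h with
  | single a => simp at hx; exact absurd hx hxa
  | @cons a a' b xs ys y0 h1 h2 h ih =>
    rcases List.mem_cons.1 hx with rfl | hx
    · exact absurd rfl hxa
    · by_cases hxa' : x = a'
      · subst hxa'
        exact ⟨a, y0, [a], xs, [], ys, rfl, rfl, single a, h1, h2, h⟩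
      · obtain ⟨a1, w, xs1, xs2, ys1, ys2, e1, e2, g1, g2, g3, g4⟩ := ih hx hxa'
        exact ⟨a1, w, a :: xs1, xs2, y0 :: ys1, ys2, by rw [e1]; rfl, by rw [e2]; rfl,
          cons y0 h1 h2 g1, g2, g3, g4⟩

theorem eq_of_length_one (h : Lk R a b xs ys) (hl : ys = []) : a = b ∧ xs = [a] := by
  cases h with
  | single a => simp
  | cons y h1 h2 h => simp at hl

/-- Crossing lemma: two sets of vertices which are together large contain consecutive vertices. -/
theorem crossing [DecidableEq α] (h : Lk R a b xs ys) (hn : xs.Nodup) (S T : Finset α)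
    (hS : ∀ x ∈ S, x ∈ xs) (hT : ∀ x ∈ T, x ∈ xs)
    (hc : xs.length ≤ (S.erase a).card + (T.erase b).card) :
    ∃ a1 b1 w xs1 xs2 ys1 ys2, xs = xs1 ++ xs2 ∧ ys = ys1 ++ w :: ys2 ∧
      Lk R a a1 xs1 ys1 ∧ R a1 w ∧ R b1 w ∧ Lk R b1 b xs2 ys2 ∧ a1 ∈ T ∧ b1 ∈ S := by
  induction h generalizing S T with
  | single a =>
    exfalso
    have h1 : S.erase a = ∅ := by
      apply Finset.eq_empty_of_forall_notMem
      intro x hx
      have := hS x (Finset.mem_of_mem_erase hx)
      simp at this
      exact Finset.ne_of_mem_erase hx this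
    have h2 : T.erase a = ∅ := by
      apply Finset.eq_empty_of_forall_notMem
      intro x hx
      have := hT x (Finset.mem_of_mem_erase hx)
      simp at this
      exact Finset.ne_of_mem_erase hx this
    rw [h1, h2] at hc
    simp at hc
  | @cons a a' b xs ys y0 h1 h2 h ih =>
    have hna : a ∉ xs := (List.nodup_cons.1 hn).1
    have hnx : xs.Nodup := (List.nodup_cons.1 hn).2
    by_cases hd : a ∈ T ∧ a' ∈ S
    · exact ⟨a, a', y0, [a], xs, [], ys, rfl, rfl, single a, h1, h2, h, hd.1, hd.2⟩
    · have hab : a ≠ b := by
        rintro rfl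
        exact hna h.last_mem
      have haa' : a ≠ a' := by
        rintro rfl
        exact hna h.head_mem
      have hc' : xs.length ≤ ((S.erase a).erase a').card + ((T.erase a).erase b).card := by
        have e1 : (S.erase a).card ≤ ((S.erase a).erase a').card + (if a' ∈ S then 1 else 0) := by
          split_ifs with hs
          · have : a' ∈ S.erase a := Finset.mem_erase.2 ⟨haa'.symm, hs⟩
            have := Finset.card_erase_add_one this
            omega
          · rw [Finset.erase_eq_of_notMem (s := S.erase a)]
            · omega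
            · intro hh; exact hs (Finset.mem_of_mem_erase hh)
        have e2 : (T.erase b).card ≤ ((T.erase a).erase b).card + (if a ∈ T then 1 else 0) := by
          rw [Finset.erase_right_comm]
          split_ifs with hs
          · have : a ∈ T.erase b := Finset.mem_erase.2 ⟨hab, hs⟩
            have := Finset.card_erase_add_one this
            omega
          · rw [Finset.erase_eq_of_notMem (s := T.erase b)]
            · omega
            · intro hh; exact hs (Finset.mem_of_mem_erase hh)
        have e3 : (if a' ∈ S then 1 else 0) + (if a ∈ T then 1 else 0) ≤ 1 := by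
          split_ifs with g1 g2
          · exact absurd ⟨g2, g1⟩ hd
          all_goals omega
        rw [List.length_cons] at hc
        omega
      obtain ⟨a1, b1, w, xs1, xs2, ys1, ys2, p1, p2, p3, p4, p5, p6, p7, p8⟩ :=
        ih hnx (S.erase a) (T.erase a)
          (fun x hx => by
            have := hS x (Finset.mem_of_mem_erase hx)
            rcases List.mem_cons.1 this with rfl | this
            · exact absurd rfl (Finset.ne_of_mem_erase hx)
            · exact this)
          (fun x hx => by
            have := hT x (Finset.mem_of_mem_erase hx)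
            rcases List.mem_cons.1 this with rfl | this
            · exact absurd rfl (Finset.ne_of_mem_erase hx)
            · exact this)
          hc'
      exact ⟨a1, b1, w, a :: xs1, xs2, y0 :: ys1, ys2, by rw [p1]; rfl, by rw [p2]; rfl,
        cons y0 h1 h2 p3, p4, p5, p6, Finset.mem_of_mem_erase p7, Finset.mem_of_mem_erase p8⟩

end Lk

/-- The list of the vertices whose predecessor in `xs` is in `T`. -/
def succs [DecidableEq α] (T : Finset α) : List α → List α
  | a :: b :: l => if a ∈ T then b :: succs T (b :: l) else succs T (b :: l)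
  | _ => []

section succs

variable [DecidableEq α] {R : α → β → Prop} {a b : α} {xs : List α} {ys : List β}

theorem succs_sublist (T : Finset α) (xs : List α) : (succs T xs).Sublist xs.tail := by
  induction xs with
  | nil => simp [succs]
  | cons a l ih =>
    cases l with
    | nil => simp [succs]
    | cons b l =>
      rw [succs]
      split_ifs with h
      · simpa using ih.cons_cons b
      · exact ih.trans (List.tail_sublist _)

theorem succs_card (h : Lk R a b xs ys) (hn : xs.Nodup) (T : Finset α) (hT : ∀ x ∈ T, x ∈ xs) :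
    (T.erase b).card = (succs T xs).length := by
  induction h generalizing T with
  | single a =>
    have h2 : T.erase a = ∅ := by
      apply Finset.eq_empty_of_forall_notMem
      intro x hx
      have := hT x (Finset.mem_of_mem_erase hx)
      simp at this
      exact Finset.ne_of_mem_erase hx this
    rw [h2]; simp [succs]
  | @cons a a' b xs ys y0 h1 h2 h ih =>
    have hna : a ∉ xs := (List.nodup_cons.1 hn).1
    have hnx : xs.Nodup := (List.nodup_cons.1 hn).2
    have hab : a ≠ b := by
      rintro rfl
      exact hna h.last_mem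
    obtain ⟨t, ht⟩ := h.exists_eq_cons
    have key : succs (T.erase a) xs = succs T xs := by
      clear ih h h1 h2 hT hn hab ht
      induction xs with
      | nil => simp [succs]
      | cons c l ih =>
        cases l with
        | nil => simp [succs]
        | cons d l =>
          have hca : c ≠ a := fun h => hna (by rw [← h]; simp)
          rw [succs, succs, ih (fun h => hna (List.mem_cons_of_mem _ h)) hnx.of_cons]
          simp [Finset.mem_erase, hca]
    have := ih hnx (T.erase a) (fun x hx => by
      have := hT x (Finset.mem_of_mem_erase hx)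
      rcases List.mem_cons.1 this with rfl | this
      · exact absurd rfl (Finset.ne_of_mem_erase hx)
      · exact this)
    rw [key] at this
    subst ht
    rw [succs]
    by_cases ha : a ∈ T
    · rw [if_pos ha, List.length_cons, ← this, Finset.erase_right_comm]
      have : a ∈ T.erase b := Finset.mem_erase.2 ⟨hab, ha⟩
      rw [Finset.card_erase_add_one this]
    · rw [if_neg ha, ← this, Finset.erase_eq_of_notMem (s := T) ha]

theorem mem_succs (h : Lk R a b xs ys) (T : Finset α) {x : α} (hx : x ∈ succs T xs) :
    ∃ a1 w xs1 xs2 ys1 ys2, xs = xs1 ++ xs2 ∧ ys = ys1 ++ w :: ys2 ∧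
      Lk R a a1 xs1 ys1 ∧ R a1 w ∧ R x w ∧ Lk R x b xs2 ys2 ∧ a1 ∈ T := by
  induction h with
  | single a => simp [succs] at hx
  | @cons a a' b xs ys y0 h1 h2 h ih =>
    obtain ⟨t, ht⟩ := h.exists_eq_cons
    have hor : (a ∈ T ∧ x = a') ∨ x ∈ succs T xs := by
      subst ht
      rw [succs] at hx
      split_ifs at hx with ha
      · rcases List.mem_cons.1 hx with rfl | hx
        · exact Or.inl ⟨ha, rfl⟩
        · exact Or.inr hx
      · exact Or.inr hx
    rcases hor with ⟨ha, rfl⟩ | hx
    · exact ⟨a, y0, [a], xs, [], ys, rfl, rfl, Lk.single a, h1, h2, h, ha⟩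
    · obtain ⟨a1, w, xs1, xs2, ys1, ys2, e1, e2, g1, g2, g3, g4, g5⟩ := ih hx
      exact ⟨a1, w, a :: xs1, xs2, y0 :: ys1, ys2, by rw [e1]; rfl, by rw [e2]; rfl,
        Lk.cons y0 h1 h2 g1, g2, g3, g4, g5⟩

theorem mem_succs_append (T : Finset α) {x c : α} (l1 l2 : List α) (hx : x ∈ T) :
    c ∈ succs T (l1 ++ x :: c :: l2) := by
  induction l1 with
  | nil => simp [succs, hx]
  | cons d l ih =>
    cases l with
    | nil =>
      simp only [List.nil_append, List.cons_append] at ih ⊢
      rw [succs]
      split_ifs
      · exact List.mem_cons_of_mem _ ih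
      · exact ih
    | cons e l =>
      simp only [List.cons_append] at ih ⊢
      rw [succs]
      split_ifs
      · exact List.mem_cons_of_mem _ ih
      · exact ih

omit [DecidableEq α] in
theorem Lk.exists_eq_append {R : α → β → Prop} {a b : α} {xs : List α} {ys : List β}
    (h : Lk R a b xs ys) : ∃ t, xs = t ++ [b] := by
  induction h with
  | single a => exact ⟨[], rfl⟩
  | @cons a a' b xs ys y0 h1 h2 h ih =>
    obtain ⟨t, ht⟩ := ih
    exact ⟨a :: t, by rw [ht]; rfl⟩

/-- The vertex after a split point is a successor. -/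
theorem mem_succs_split {a1 b1 : α} {xs1 xs2 : List α} {ys1 ys2 : List β} (T : Finset α)
    (h1 : Lk R a a1 xs1 ys1) (h2 : Lk R b1 b xs2 ys2) (h : a1 ∈ T) :
    b1 ∈ succs T (xs1 ++ xs2) := by
  obtain ⟨t, ht⟩ := h1.exists_eq_append
  obtain ⟨s, hs⟩ := h2.exists_eq_cons
  subst ht hs
  rw [List.append_assoc]
  exact mem_succs_append T t s h

/-- The predecessor of a successor at a given split point is in `T`. -/
theorem mem_of_succs_split {a1 b1 : α} {xs1 xs2 : List α} {ys1 ys2 : List β} (T : Finset α)
    (hn : (xs1 ++ xs2).Nodup) (h1 : Lk R a a1 xs1 ys1) (h2 : Lk R b1 b xs2 ys2)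
    (h : b1 ∈ succs T (xs1 ++ xs2)) : a1 ∈ T := by
  obtain ⟨s, hs⟩ := h2.exists_eq_cons
  subst hs
  clear h2
  induction h1 with
  | single a =>
    simp only [List.cons_append, List.nil_append] at h hn
    rw [succs] at h
    split_ifs at h with ha
    · exact ha
    · exfalso
      have := (succs_sublist T (b1 :: s)).subset h
      simp only [List.tail_cons] at this
      exact (List.nodup_cons.1 (List.nodup_cons.1 hn).2).1 this
  | @cons a a' b xs ys y0 g1 g2 g ih =>
    obtain ⟨t, ht⟩ := g.exists_eq_cons
    subst ht
    simp only [List.cons_append] at h hn ih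
    rw [succs] at h
    have hb : b1 ≠ a' := by
      rintro rfl
      have := (List.nodup_cons.1 (List.nodup_cons.1 hn).2).1
      simp at this
    have h' : b1 ∈ succs T (a' :: (t ++ b1 :: s)) := by
      split_ifs at h with ha
      · rcases List.mem_cons.1 h with h | h
        · exact absurd h hb
        · exact h
      · exact h
    exact ih (List.nodup_cons.1 hn).2 h'

/-- Counting: two large sets, one of which avoids the successors of the other one. -/
theorem compl_succs (h : Lk R a b xs ys) (hn : xs.Nodup) {d : ℕ} (T M : Finset α)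
    (hT : ∀ x ∈ T, x ∈ xs) (hb : b ∈ T) (hTd : d ≤ T.card)
    (hM : ∀ x ∈ M, x ∈ xs) (hMd : d ≤ M.card) (hdis : ∀ x ∈ M, x ∉ succs T xs)
    (hl : xs.length + 1 ≤ 2 * d) :
    (∀ x, x ∈ M ↔ x ∈ xs ∧ x ∉ succs T xs) ∧ M.card = d ∧ T.card = d ∧
      xs.length + 1 = 2 * d := by
  have h1 := succs_card h hn T hT
  have h2 : (T.erase b).card + 1 = T.card := Finset.card_erase_add_one hb
  have hsn : (succs T xs).Nodup := (hn.sublist (List.tail_sublist xs)).sublist (succs_sublist T xs)
  have hsx : ∀ x ∈ succs T xs, x ∈ xs := fun x hx =>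
    List.mem_of_mem_tail ((succs_sublist T xs).subset hx)
  have hsub : M ⊆ xs.toFinset \ (succs T xs).toFinset := by
    intro x hx
    simp only [Finset.mem_sdiff, List.mem_toFinset]
    exact ⟨hM x hx, hdis x hx⟩
  have hcard : (xs.toFinset \ (succs T xs).toFinset).card = xs.length - (succs T xs).length := by
    rw [Finset.card_sdiff_of_subset, List.toFinset_card_of_nodup hn,
      List.toFinset_card_of_nodup hsn]
    intro x hx
    simp only [List.mem_toFinset] at hx ⊢
    exact hsx x hx
  have hle := Finset.card_le_card hsub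
  have hlen : (succs T xs).length ≤ xs.length := by
    have := ((succs_sublist T xs).trans (List.tail_sublist xs)).length_le
    exact this
  rw [hcard] at hle
  have hMc : M.card = d := by omega
  have heq : M = xs.toFinset \ (succs T xs).toFinset := by
    apply Finset.eq_of_subset_of_card_le hsub
    rw [hcard]; omega
  refine ⟨fun x => ?_, hMc, by omega, by omega⟩
  conv_lhs => rw [heq]
  simp

end succs

end Pool.Agent.MP_52ca01_co
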