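import Pool.Agent.Lib.MP_52ca01_co.Ham

/-!
Longest alternating paths in connected bipartite graphs.
-/

set_option autoImplicit false
set_option linter.unusedSectionVars false

namespace Pool.Agent.MP_52ca01_co

open Finset

/-- There is a path with `p` vertices on each side. -/
def Mix {α β : Type*} (R : α → β → Prop) (p : ℕ) : Prop :=
  ∃ a b xs ys y, Pth R a b xs ys ∧ y ∉ ys ∧ R b y ∧ xs.length = p

section flip

variable {α β : Type*} {R : α → β → Prop} {a b : α} {xs : List α} {ys : List β} {y : β}

theorem Lk.flip (h : Lk R a b xs ys) (hy : R b y) :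
    ∃ y1 t, xs = a :: t ∧ Lk (fun y x => R x y) y1 y (ys ++ [y]) t ∧ R a y1 := by
  induction h with
  | single a => exact ⟨y, [], rfl, Lk.single y, hy⟩
  | @cons a a' b xs ys y0 h1 h2 h ih =>
    obtain ⟨y1, t, e1, e2, e3⟩ := ih hy
    subst e1
    exact ⟨y0, a' :: t, rfl, Lk.cons a' h2 e3 e2, h1⟩

theorem Pth.flip (h : Pth R a b xs ys) (hyn : y ∉ ys) (hy : R b y) :
    ∃ y1 t, xs = a :: t ∧ Pth (fun y x => R x y) y1 y (ys ++ [y]) t ∧ R a y1 ∧ a ∉ t := by
  obtain ⟨y1, t, e1, e2, e3⟩ := h.lk.flip hy
  have hnx := h.nx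
  subst e1
  refine ⟨y1, t, rfl, ⟨e2, ?_, (List.nodup_cons.1 hnx).2⟩, e3, (List.nodup_cons.1 hnx).1⟩
  rw [List.nodup_append]
  refine ⟨h.ny, by simp, ?_⟩
  intro s hs s' hs' hss
  rw [List.mem_singleton] at hs'
  subst hs'
  subst hss
  exact hyn hs

theorem Mix.flip {p : ℕ} (h : Mix R p) : Mix (fun y x => R x y) p := by
  obtain ⟨a, b, xs, ys, y, h1, h2, h3, h4⟩ := h
  obtain ⟨y1, t, e1, e2, e3, e4⟩ := h1.flip h2 h3
  refine ⟨y, y1, _, _, a, e2.reverse, fun hh => e4 (List.mem_reverse.1 hh), e3, ?_⟩
  have := h1.length_eq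
  simp only [List.length_reverse, List.length_append, List.length_cons, List.length_nil]
  omega

end flip

variable {α β : Type*} [DecidableEq α] [DecidableEq β]

/-- Crossing with a set of vertices of the second kind. -/
theorem Lk.crossingY {R : α → β → Prop} {a b : α} {xs : List α} {ys : List β}
    (h : Lk R a b xs ys) (hn : xs.Nodup) (hny : ys.Nodup) (S : Finset β) (T : Finset α)
    (hS : ∀ y ∈ S, y ∈ ys) (hT : ∀ x ∈ T, x ∈ xs)
    (hc : ys.length + 1 ≤ S.card + (T.erase b).card) :
    ∃ a1 b1 w xs1 xs2 ys1 ys2, xs = xs1 ++ xs2 ∧ ys = ys1 ++ w :: ys2 ∧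
      Lk R a a1 xs1 ys1 ∧ R a1 w ∧ R b1 w ∧ Lk R b1 b xs2 ys2 ∧ a1 ∈ T ∧ w ∈ S := by
  induction h generalizing S T with
  | single a =>
    exfalso
    have h1 : S = ∅ := by
      apply Finset.eq_empty_of_forall_notMem
      intro x hx
      simpa using hS x hx
    have h2 : T.erase a = ∅ := by
      apply Finset.eq_empty_of_forall_notMem
      intro x hx
      have := hT x (Finset.mem_of_mem_erase hx)
      simp at this
      exact Finset.ne_of_mem_erase hx this
    rw [h1, h2] at hc
    simp at hc
  | @cons a a' b xs ys y0 h1 h2 h ih =>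
    have hna : a ∉ xs := (List.nodup_cons.1 hn).1
    have hnx : xs.Nodup := (List.nodup_cons.1 hn).2
    by_cases hd : a ∈ T ∧ y0 ∈ S
    · exact ⟨a, a', y0, [a], xs, [], ys, rfl, rfl, single a, h1, h2, h, hd.1, hd.2⟩
    · have hab : a ≠ b := by
        rintro rfl
        exact hna h.last_mem
      have hc' : ys.length + 1 ≤ (S.erase y0).card + ((T.erase a).erase b).card := by
        have e1 : S.card ≤ (S.erase y0).card + (if y0 ∈ S then 1 else 0) := by
          split_ifs with hs
          · have := Finset.card_erase_add_one hs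
            omega
          · rw [Finset.erase_eq_of_notMem hs]
            omega
        have e2 : (T.erase b).card ≤ ((T.erase a).erase b).card + (if a ∈ T then 1 else 0) := by
          rw [Finset.erase_right_comm]
          split_ifs with hs
          · have : a ∈ T.erase b := Finset.mem_erase.2 ⟨hab, hs⟩
            have := Finset.card_erase_add_one this
            omega
          · rw [Finset.erase_eq_of_notMem (s := T.erase b)]
            · omega
            · intro hh; exact hs (Finset.mem_of_mem_erase hh)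
        have e3 : (if y0 ∈ S then 1 else 0) + (if a ∈ T then 1 else 0) ≤ 1 := by
          split_ifs with g1 g2
          · exact absurd ⟨g2, g1⟩ hd
          all_goals omega
        rw [List.length_cons] at hc
        omega
      obtain ⟨a1, b1, w, xs1, xs2, ys1, ys2, p1, p2, p3, p4, p5, p6, p7, p8⟩ :=
        ih hnx (List.nodup_cons.1 hny).2 (S.erase y0) (T.erase a)
          (fun y hy => by
            have := hS y (Finset.mem_of_mem_erase hy)
            rcases List.mem_cons.1 this with rfl | this
            · exact absurd rfl (Finset.ne_of_mem_erase hy)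
            · exact this)
          (fun x hx => by
            have := hT x (Finset.mem_of_mem_erase hx)
            rcases List.mem_cons.1 this with rfl | this
            · exact absurd rfl (Finset.ne_of_mem_erase hx)
            · exact this)
          hc'
      exact ⟨a1, b1, w, a :: xs1, xs2, y0 :: ys1, ys2, by rw [p1]; rfl, by rw [p2]; rfl,
        cons y0 h1 h2 p3, p4, p5, p6, Finset.mem_of_mem_erase p7, Finset.mem_of_mem_erase p8⟩

open scoped Classical in
/-- A connected bipartite graph on `(A, B)` with minimum degree `d`. -/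
structure Conn (G : α → β → Prop) (d : ℕ) (A : Finset α) (B : Finset β) : Prop where
  mem : ∀ x y, G x y → x ∈ A ∧ y ∈ B
  degA : ∀ x ∈ A, d ≤ (B.filter (fun y => G x y)).card
  degB : ∀ y ∈ B, d ≤ (A.filter (fun x => G x y)).card
  conn : ∀ A1 ⊆ A, ∀ B1 ⊆ B, (∀ x y, G x y → (x ∈ A1 ↔ y ∈ B1)) →
    (A1.Nonempty ∨ B1.Nonempty) → A1 = A ∧ B1 = B

theorem Conn.flip {G : α → β → Prop} {d : ℕ} {A : Finset α} {B : Finset β} (h : Conn G d A B) :
    Conn (fun y x => G x y) d B A :=
  ⟨fun x y hxy => (h.mem y x hxy).symm, h.degB, h.degA, fun A1 hA1 B1 hB1 hc hn =>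
    (h.conn B1 hB1 A1 hA1 (fun x y hxy => (hc y x hxy).symm) hn.symm).symm⟩

open scoped Classical in
/-- A cycle of maximal length cannot occur in a larger connected graph. -/
theorem noCyc {G : α → β → Prop} {d p : ℕ} {A : Finset α} {B : Finset β} (hG : Conn G d A B)
    (hp : p + 1 ≤ 2 * d) (hA : p < A.card) (hB : p < B.card) (hmax : ¬ Mix G (p + 1))
    {a b : α} {xs : List α} {ys : List β} {z : β} (h : Cyc G a b xs ys z)
    (hl : xs.length = p) : False := by
  have hlen := h.pth.length_eq
  have hxs : ∀ x ∈ xs, x ∈ A := by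
    intro x hx
    obtain ⟨b', xs', ys', z', h1, -⟩ := h.rot_x hx
    exact (hG.mem _ _ h1.la).1
  have hys : ∀ y ∈ z :: ys, ∃ x ∈ xs, G x y := by
    intro y hy
    obtain ⟨a', b', xs', ys', h1, h2, -⟩ := h.rot_y' hy
    exact ⟨a', (h2 a').1 h1.pth.lk.head_mem, h1.la⟩
  have hX : xs.toFinset.card = p := by rw [List.toFinset_card_of_nodup h.pth.nx, hl]
  have hY : (z :: ys).toFinset.card = p := by
    rw [List.toFinset_card_of_nodup (List.nodup_cons.2 ⟨h.nz, h.pth.ny⟩), List.length_cons]
    omega
  -- (1)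
  have c1 : ∀ y', y' ∉ z :: ys → ∀ x ∈ xs, G x y' → ∀ x', G x' y' → x' ∈ xs := by
    intro y' hy' x hx hxy x' hx'
    by_contra hx'n
    obtain ⟨b', xs', ys', z', h1, h2, h3, h4⟩ := h.rot_x hx
    apply hmax
    have hy'n : y' ∉ z' :: ys' := fun hh => hy' ((h3 y').1 hh)
    rw [List.mem_cons, not_or] at hy'n
    refine ⟨x', b', _, _, z', h1.pth.cons (fun hh => hx'n ((h2 x').1 hh)) hy'n.2 hx' hxy, ?_,
      h1.lb, by simp [h4, hl]⟩
    rw [List.mem_cons, not_or]
    exact ⟨fun hh => hy'n.1 hh.symm, h1.nz⟩
  -- (2)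
  have c2 : ∀ x', x' ∉ xs → ∀ y ∈ z :: ys, G x' y → ∀ y', G x' y' → y' ∈ z :: ys := by
    intro x' hx' y hy hxy y' hy'
    by_contra hy'n
    obtain ⟨a', b', xs', ys', h1, h2, h3, h4⟩ := h.rot_y' hy
    apply hmax
    refine ⟨b', x', _, _, y', (h1.pth.cons (fun hh => hx' ((h2 x').1 hh)) h1.nz hxy
      h1.la).reverse, fun hh => hy'n ((h3 y').1 (List.mem_reverse.1 hh)), hy', by simp [h4, hl]⟩
  -- (3)
  have c3 : ∀ x', x' ∉ xs → ∀ y ∈ z :: ys, G x' y → ∀ y', y' ∉ z :: ys → ∀ x ∈ xs,
      G x y' → False := by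
    intro x' hx' y hy hxy y' hy' x hx hxy'
    have d1 : d ≤ (B.filter (fun y => G x' y)).card := hG.degA x' (hG.mem _ _ hxy).1
    have d2 : d ≤ (A.filter (fun x => G x y')).card := hG.degB y' (hG.mem _ _ hxy').2
    have hy'2 : y' ≠ z ∧ y' ∉ ys := by simpa using hy'
    by_cases hs : G x' z ∧ G b y'
    · apply hmax
      refine ⟨x', b, _, _, y', h.pth.cons hx' h.nz hs.1 h.la, hy', hs.2, by simp [hl]⟩
    · have hcard : ys.length + 1 ≤ ((B.filter (fun y => G x' y)).erase z).card +
          ((A.filter (fun x => G x y')).erase b).card := by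
        have e1 : (B.filter (fun y => G x' y)).card - 1 ≤
          ((B.filter (fun y => G x' y)).erase z).card := Finset.pred_card_le_card_erase
        have e2 : (A.filter (fun x => G x y')).card - 1 ≤
          ((A.filter (fun x => G x y')).erase b).card := Finset.pred_card_le_card_erase
        by_cases hz : G x' z
        · have hb : ¬ G b y' := fun hb => hs ⟨hz, hb⟩
          have e3 : (A.filter (fun x => G x y')).erase b = A.filter (fun x => G x y') :=
            Finset.erase_eq_of_notMem (fun hh => hb (Finset.mem_filter.1 hh).2)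
          rw [e3]
          omega
        · have e3 : (B.filter (fun y => G x' y)).erase z = B.filter (fun y => G x' y) :=
            Finset.erase_eq_of_notMem (fun hh => hz (Finset.mem_filter.1 hh).2)
          rw [e3]
          omega
      obtain ⟨a1, b1, w, xs1, xs2, ys1, ys2, e3, e4, g1, g2, g3, g4, g5, g6⟩ :=
        h.pth.lk.crossingY h.pth.nx h.pth.ny _ _
        (fun t ht => by
          rw [Finset.mem_erase, Finset.mem_filter] at ht
          have := c2 x' hx' y hy hxy t ht.2.2
          rcases List.mem_cons.1 this with h | h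
          · exact absurd h ht.1
          · exact h)
        (fun t ht => c1 y' hy' x hx hxy' t (Finset.mem_filter.1 ht).2) hcard
      have hnx := h.pth.nx
      have hny := h.pth.ny
      have hnz := h.nz
      subst e3 e4
      have hcyc := Cyc.of_split hnx hny g1 g4 hnz h.la h.lb g2 g3
      apply hmax
      rw [Finset.mem_erase, Finset.mem_filter] at g6
      rw [Finset.mem_filter] at g5
      refine ⟨x', a1, _, _, y', hcyc.pth.cons (x := x') (y := w) ?_ hcyc.nz g6.2.2 g3, ?_, g5.2, ?_⟩
      · simp only [List.mem_append, not_or] at hx' ⊢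
        exact hx'.symm
      · simp only [List.mem_append, List.mem_cons, not_or] at hy' ⊢
        tauto
      · simp only [List.length_append, List.length_cons] at hl ⊢
        omega
  by_cases c4 : ∃ x', x' ∉ xs ∧ ∃ y ∈ z :: ys, G x' y
  · obtain ⟨x', hx', y, hy, hxy⟩ := c4
    have c5 : ∀ y', y' ∉ z :: ys → ∀ x ∈ xs, ¬ G x y' := fun y' hy' x hx hxy' =>
      c3 x' hx' y hy hxy y' hy' x hx hxy'
    obtain ⟨-, e2⟩ := hG.conn (A.filter (fun x => ∃ y ∈ z :: ys, G x y)) (Finset.filter_subset _ _)
      (z :: ys).toFinset (by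
        intro t ht
        rw [List.mem_toFinset] at ht
        obtain ⟨s, -, hs⟩ := hys t ht
        exact (hG.mem _ _ hs).2) (by
        intro s t hst
        rw [Finset.mem_filter, List.mem_toFinset]
        constructor
        · rintro ⟨h1, y1, hy1, hsy1⟩
          by_cases hsx : s ∈ xs
          · by_contra ht
            exact c5 t ht s hsx hst
          · exact c2 s hsx y1 hy1 hsy1 t hst
        · intro ht
          exact ⟨(hG.mem _ _ hst).1, t, ht, hst⟩)
      (Or.inr ⟨z, by simp⟩)
    rw [← e2, hY] at hB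
    exact lt_irrefl _ hB
  · push Not at c4
    obtain ⟨e1, -⟩ := hG.conn xs.toFinset (fun t ht => hxs t (List.mem_toFinset.1 ht))
      (B.filter (fun y => ∃ x ∈ xs, G x y)) (Finset.filter_subset _ _) (by
        intro s t hst
        rw [Finset.mem_filter, List.mem_toFinset]
        constructor
        · intro hs
          exact ⟨(hG.mem _ _ hst).2, s, hs, hst⟩
        · rintro ⟨h1, x1, hx1, hx1t⟩
          by_cases ht : t ∈ z :: ys
          · by_contra hs
            exact c4 s hs t ht hst
          · exact c1 t ht x1 hx1 hx1t s hst)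
      (Or.inl ⟨a, by rw [List.mem_toFinset]; exact h.pth.lk.head_mem⟩)
    rw [← e1, hX] at hA
    exact lt_irrefl _ hA

end Pool.Agent.MP_52ca01_co
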