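import Pool.Agent.Lib.MP_52ca01_co.Prune
import Pool.Agent.Lib.MP_52ca01_co.Exotic

/-!
The weighted bound for the number of edges of a bipartite graph without long paths.
-/

set_option autoImplicit false
set_option linter.unusedSectionVars false

namespace Pool.Agent.MP_52ca01_co

open Finset

variable {α β : Type*} [DecidableEq α] [DecidableEq β]

/-- The weighted bound. -/
def Pot (R : α → β → Prop) (m t : ℕ) (A : Finset α) (B : Finset β) : Prop :=
  2 * (2 * m + 1 : ℤ) ^ 2 * edg R A B ≤ 2 * m * (m + 1) * (2 * m + 1) * (A.card + B.card) +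
    (m : ℤ) ^ 2 * (hp (Good R (m + 1) (t + 1)) B + hp (Good (fun y x => R x y) (m + 1) (t + 1)) A)

theorem Pot.flip {R : α → β → Prop} {m t : ℕ} {A : Finset α} {B : Finset β}
    (h : Pot (fun y x => R x y) m t B A) : Pot R m t A B := by
  unfold Pot at h ⊢
  rw [edg_flip] at h
  calc _ ≤ _ := h
    _ = _ := by ring

theorem pot_small (R : α → β → Prop) {m t : ℕ} (ht : 2 * t ≤ m) (A : Finset α) (B : Finset β)
    (hA : A.card ≤ m) : Pot R m t A B := by
  unfold Pot
  have hpos : (0 : ℤ) ≤ (m : ℤ) ^ 2 * (hp (Good R (m + 1) (t + 1)) B +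
    hp (Good (fun y x => R x y) (m + 1) (t + 1)) A) := by positivity
  have hm0 : (0 : ℤ) ≤ m := by positivity
  have hA' : (A.card : ℤ) ≤ m := by exact_mod_cast hA
  have hB0 : (0 : ℤ) ≤ B.card := by positivity
  have hA0 : (0 : ℤ) ≤ A.card := by positivity
  have ht0 : (2 * t : ℤ) ≤ m := by exact_mod_cast ht
  have ht00 : (0 : ℤ) ≤ t := by positivity
  have red : (2 * m + 1 : ℤ) * edg R A B ≤ m * (m + 1) * (A.card + B.card) →
      2 * (2 * m + 1 : ℤ) ^ 2 * edg R A B ≤
        2 * m * (m + 1) * (2 * m + 1) * (A.card + B.card) := by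
    intro h
    have := mul_le_mul_of_nonneg_left h (by positivity : (0:ℤ) ≤ 2 * (2 * m + 1 : ℤ))
    nlinarith
  rcases Nat.lt_or_ge m B.card with hb | hb
  · rcases prune R ht _ A B le_rfl hA with h | ⟨A0, B0, h1, h2, h3, h4⟩
    · have hb' : (m : ℤ) + 1 ≤ B.card := by exact_mod_cast hb
      have hc : 0 ≤ 2 * ((m : ℤ) ^ 2 + m - (2 * m + 1) * t) := by nlinarith
      have hc' : 0 ≤ (m : ℤ) ^ 2 + m - (2 * m + 1) * t := by linarith
      suffices hs : (2 * m + 1 : ℤ) * edg R A B ≤ m * (m + 1) * (A.card + B.card) by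
        have := red hs
        linarith
      rcases Nat.le_total A.card t with hat | hat
      · have e1 : (edg R A B : ℤ) ≤ t * B.card := by
          have : A.card - t = 0 := by omega
          rw [this] at h
          simp at h
          exact_mod_cast h
        have e2 := mul_le_mul_of_nonneg_left e1 (by positivity : (0:ℤ) ≤ 2 * m + 1)
        have e3 := mul_nonneg hc' hB0
        have e4 : 0 ≤ (m : ℤ) * (m + 1) * A.card := by positivity
        nlinarith
      · have e1 : (edg R A B : ℤ) ≤ t * B.card + (A.card - t) * m := by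
          have : (edg R A B : ℤ) ≤ t * B.card + ((A.card - t : ℕ) : ℤ) * m := by exact_mod_cast h
          rwa [Nat.cast_sub hat] at this
        have e2 := mul_le_mul_of_nonneg_left e1 (by positivity : (0:ℤ) ≤ 2 * m + 1)
        have e3 := mul_nonneg hc' (by linarith : (0:ℤ) ≤ (B.card : ℤ) - (m + 1))
        have e4 : 0 ≤ (m : ℤ) ^ 2 * (m - A.card) := mul_nonneg (by positivity) (by linarith)
        have e5 : 0 ≤ (2 * m + 1 : ℤ) * (m - t) := mul_nonneg (by positivity) (by linarith)
        nlinarith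
    · have h5 := hp_all (Good R (m + 1) (t + 1)) (B := B0)
        (fun u hu v hv => ⟨A0, B0, h3, hu, hv⟩)
      have h6 : (hp (Good R (m + 1) (t + 1)) B0 : ℤ) ≤ hp (Good R (m + 1) (t + 1)) B := by
        exact_mod_cast hp_mono _ h2
      have h7 : (0 : ℤ) ≤ 2 * (m : ℤ) ^ 2 * (2 * m + 1) * (m - A.card) :=
        mul_nonneg (by positivity) (by linarith)
      have h8 : (0 : ℤ) ≤ hp (Good (fun y x => R x y) (m + 1) (t + 1)) A := by positivity
      have h9 := mul_le_mul_of_nonneg_left (h5 ▸ h6) (by positivity : (0:ℤ) ≤ (m:ℤ) ^ 2)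
      have h10 := mul_nonneg (by positivity : (0:ℤ) ≤ (m:ℤ) ^ 2) h8
      rw [mul_add]
      linarith
  · have e1 : (edg R A B : ℤ) ≤ B.card * A.card := by exact_mod_cast edg_le R A B
    have hb' : (B.card : ℤ) ≤ m := by exact_mod_cast hb
    suffices hs : (2 * m + 1 : ℤ) * edg R A B ≤ m * (m + 1) * (A.card + B.card) by
      have := red hs
      linarith
    have e2 := mul_le_mul_of_nonneg_left e1 (by positivity : (0:ℤ) ≤ 2 * m + 1)
    have e3 := mul_nonneg hA0 (by linarith : (0:ℤ) ≤ m - B.card)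
    have e4 := mul_nonneg hB0 (by linarith : (0:ℤ) ≤ m - A.card)
    have e5 := mul_nonneg hm0 e3
    have e6 := mul_nonneg hm0 e4
    have e7 := mul_nonneg hA0 hB0
    nlinarith

open scoped Classical in
theorem pot_erase_y {R : α → β → Prop} {m t : ℕ} (ht : 2 * t ≤ m) {A : Finset α} {B : Finset β}
    {y : β} (hy : y ∈ B) (hdy : (A.filter (fun x => R x y)).card ≤ t)
    (h : Pot R m t A (B.erase y)) : Pot R m t A B := by
  unfold Pot at h ⊢
  have e1 := edg_erase_y R A hy
  have e2 := Finset.card_erase_add_one hy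
  have e3 : (edg R A B : ℤ) ≤ edg R A (B.erase y) + t := by
    rw [e1]; push_cast; exact_mod_cast Nat.add_le_add_left hdy _
  have e4 : (B.card : ℤ) = (B.erase y).card + 1 := by exact_mod_cast e2.symm
  have e5 : 2 * (2 * m + 1 : ℤ) ^ 2 * edg R A B ≤
    2 * (2 * m + 1 : ℤ) ^ 2 * edg R A (B.erase y) + (2 * m + 1 : ℤ) ^ 2 * (2 * t) := by
    nlinarith [mul_le_mul_of_nonneg_left e3 (by positivity : (0:ℤ) ≤ 2 * (2 * m + 1 : ℤ) ^ 2)]
  have e6 : (2 * m + 1 : ℤ) ^ 2 * (2 * t) ≤ 2 * m * (m + 1) * (2 * m + 1) := by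
    have h7 : (2 * t : ℤ) ≤ m := by exact_mod_cast ht
    have h8 := mul_le_mul_of_nonneg_left h7 (by positivity : (0:ℤ) ≤ (2 * m + 1 : ℤ) ^ 2)
    have h9 : (0:ℤ) ≤ m := by positivity
    nlinarith
  have e7 : (hp (Good R (m + 1) (t + 1)) (B.erase y) : ℤ) ≤ hp (Good R (m + 1) (t + 1)) B := by
    exact_mod_cast hp_mono _ (Finset.erase_subset _ _)
  have e8 := mul_le_mul_of_nonneg_left e7 (by positivity : (0:ℤ) ≤ (m:ℤ) ^ 2)
  rw [mul_add] at h ⊢
  rw [e4]
  linarith

theorem pot_cut {R : α → β → Prop} {m t : ℕ} {A A1 : Finset α} {B B1 : Finset β}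
    (hA : A1 ⊆ A) (hB : B1 ⊆ B) (hc : ∀ x ∈ A, ∀ y ∈ B, R x y → (x ∈ A1 ↔ y ∈ B1))
    (h1 : Pot R m t A1 B1) (h2 : Pot R m t (A \ A1) (B \ B1)) : Pot R m t A B := by
  classical
  have e1 : edg R A B = edg R A1 B1 + edg R (A \ A1) (B \ B1) := by
    unfold edg
    rw [← Finset.sum_sdiff hB, add_comm]
    congr 1
    · refine Finset.sum_congr rfl fun y hy => ?_
      congr 1
      ext x
      simp only [Finset.mem_filter]
      constructor
      · rintro ⟨hx, hxy⟩
        exact ⟨(hc x hx y (hB hy) hxy).2 hy, hxy⟩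
      · rintro ⟨hx, hxy⟩
        exact ⟨hA hx, hxy⟩
    · refine Finset.sum_congr rfl fun y hy => ?_
      rw [Finset.mem_sdiff] at hy
      congr 1
      ext x
      simp only [Finset.mem_filter, Finset.mem_sdiff]
      constructor
      · rintro ⟨hx, hxy⟩
        exact ⟨⟨hx, fun h => hy.2 ((hc x hx y hy.1 hxy).1 h)⟩, hxy⟩
      · rintro ⟨hx, hxy⟩
        exact ⟨hx.1, hxy⟩
  have e2 : (A.card : ℤ) = A1.card + (A \ A1).card := by
    have := Finset.card_sdiff_add_card_eq_card hA
    exact_mod_cast (by omega : A.card = A1.card + (A \ A1).card)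
  have e3 : (B.card : ℤ) = B1.card + (B \ B1).card := by
    have := Finset.card_sdiff_add_card_eq_card hB
    exact_mod_cast (by omega : B.card = B1.card + (B \ B1).card)
  have e4 : (hp (Good R (m + 1) (t + 1)) B1 : ℤ) + hp (Good R (m + 1) (t + 1)) (B \ B1) ≤
      hp (Good R (m + 1) (t + 1)) B := by
    exact_mod_cast hp_disj _ hB Finset.sdiff_subset Finset.disjoint_sdiff
  have e5 : (hp (Good (fun y x => R x y) (m + 1) (t + 1)) A1 : ℤ) +
      hp (Good (fun y x => R x y) (m + 1) (t + 1)) (A \ A1) ≤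
      hp (Good (fun y x => R x y) (m + 1) (t + 1)) A := by
    exact_mod_cast hp_disj _ hA Finset.sdiff_subset Finset.disjoint_sdiff
  have e6 := mul_le_mul_of_nonneg_left (add_le_add e4 e5) (by positivity : (0:ℤ) ≤ (m:ℤ) ^ 2)
  unfold Pot at h1 h2 ⊢
  rw [e1, e2, e3]
  push_cast
  nlinarith

theorem num1 {m s : ℤ} (hm : 1 ≤ m) (hs : 1 ≤ s) :
    (2 * m + 1) ^ 2 * ((m + 1) * (2 * m + s)) ≤ 2 * m * (m + 1) * (2 * m + 1) * (1 + (2 * m + s)) +
      m ^ 2 * ((2 * m + s) * (2 * m + s - 1)) := by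
  have key : 2 * m * (m + 1) * (2 * m + 1) * (1 + (2 * m + s)) +
      m ^ 2 * ((2 * m + s) * (2 * m + s - 1)) - (2 * m + 1) ^ 2 * ((m + 1) * (2 * m + s)) =
      m ^ 3 * (4 * m - 2) + s * (4 * m ^ 3 - 3 * m ^ 2 - 3 * m - 1) + m ^ 2 * s ^ 2 := by ring
  rcases eq_or_lt_of_le hm with h2 | h2
  · subst h2
    have : 0 ≤ (s - 1) * (s - 2) := by
      rcases le_or_gt s 1 with h | h
      · exact mul_nonneg_of_nonpos_of_nonpos (by linarith) (by linarith)
      · have : 2 ≤ s := h
        exact mul_nonneg (by linarith) (by linarith)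
    linarith
  · have h3 : 2 ≤ m := h2
    have h4 : 0 ≤ 4 * m ^ 3 - 3 * m ^ 2 - 3 * m - 1 := by
      have g1 : 0 ≤ m * (m * (m - 2)) :=
        mul_nonneg (by linarith) (mul_nonneg (by linarith) (by linarith))
      have g2 : 0 ≤ m * (m - 2) := mul_nonneg (by linarith) (by linarith)
      nlinarith
    have h5 := mul_nonneg (by linarith : 0 ≤ s) h4
    have h6 : 0 ≤ m ^ 2 * s ^ 2 := by positivity
    have h7 : 0 ≤ m ^ 3 * (4 * m - 2) := mul_nonneg (by positivity) (by linarith)
    linarith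

open scoped Classical in
theorem pot_leaf {R : α → β → Prop} {m t : ℕ} (hm : 1 ≤ m) (hmt : m = 2 * t + 1)
    {A : Finset α} {B : Finset β} {a : α} (ha : a ∈ A) {S : Finset α} (hS : S.card = t + 1)
    (hleaf : ∀ y ∈ B, R a y → A.filter (fun x => R x y) = S)
    (h : Pot R m t (A.erase a) (B \ B.filter (fun y => R a y))) : Pot R m t A B := by
  obtain ⟨W, hW⟩ : ∃ W : Finset β, W = B.filter (fun y => R a y) := ⟨_, rfl⟩
  have hWB : W ⊆ B := by rw [hW]; exact Finset.filter_subset _ _
  have hWmem : ∀ y, y ∈ W ↔ y ∈ B ∧ R a y := by intro y; rw [hW, Finset.mem_filter]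
  rw [← hW] at h
  have e1 : edg R A B = edg R (A.erase a) (B \ W) + W.card * (t + 1) := by
    unfold edg
    rw [← Finset.sum_sdiff hWB]
    congr 1
    · refine Finset.sum_congr rfl fun y hy => ?_
      rw [Finset.mem_sdiff, hWmem] at hy
      congr 1
      ext x
      simp only [Finset.mem_filter, Finset.mem_erase]
      constructor
      · rintro ⟨hx, hxy⟩
        refine ⟨⟨?_, hx⟩, hxy⟩
        rintro rfl
        exact hy.2 ⟨hy.1, hxy⟩
      · rintro ⟨hx, hxy⟩
        exact ⟨hx.2, hxy⟩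
    · rw [Finset.sum_congr rfl (fun y hy => by
        rw [hleaf y ((hWmem y).1 hy).1 ((hWmem y).1 hy).2, hS] : ∀ y ∈ W,
          (A.filter (fun x => R x y)).card = t + 1), Finset.sum_const, smul_eq_mul]
  have e2 : (A.card : ℤ) = (A.erase a).card + 1 := by
    exact_mod_cast (Finset.card_erase_add_one ha).symm
  have e3 : (B.card : ℤ) = W.card + (B \ W).card := by
    have := Finset.card_sdiff_add_card_eq_card hWB
    exact_mod_cast (by omega : B.card = W.card + (B \ W).card)
  have e4 : (hp (Good R (m + 1) (t + 1)) W : ℤ) + hp (Good R (m + 1) (t + 1)) (B \ W) ≤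
      hp (Good R (m + 1) (t + 1)) B := by
    exact_mod_cast hp_disj _ hWB Finset.sdiff_subset Finset.disjoint_sdiff
  have e5 : (hp (Good (fun y x => R x y) (m + 1) (t + 1)) (A.erase a) : ℤ) ≤
      hp (Good (fun y x => R x y) (m + 1) (t + 1)) A := by
    exact_mod_cast hp_mono _ (Finset.erase_subset _ _)
  have e6 := mul_le_mul_of_nonneg_left (add_le_add e4 e5) (by positivity : (0:ℤ) ≤ (m:ℤ) ^ 2)
  obtain ⟨w, hw⟩ : ∃ w : ℤ, w = W.card := ⟨_, rfl⟩
  have hw0 : 0 ≤ w := by rw [hw]; positivity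
  have hm1 : (1 : ℤ) ≤ m := by exact_mod_cast hm
  have hmt' : (m : ℤ) = 2 * t + 1 := by exact_mod_cast hmt
  -- the numerical inequality
  have num : (2 * m + 1 : ℤ) ^ 2 * ((m + 1) * w) ≤ 2 * m * (m + 1) * (2 * m + 1) * (1 + w) +
      (m : ℤ) ^ 2 * hp (Good R (m + 1) (t + 1)) W := by
    rcases le_or_gt w (2 * m) with h1 | h1
    · have : 0 ≤ (m : ℤ) ^ 2 * hp (Good R (m + 1) (t + 1)) W := by positivity
      have h2 : 0 ≤ ((m : ℤ) + 1) * (2 * m + 1) * (2 * m - w) :=
        mul_nonneg (by positivity) (by linarith)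
      nlinarith
    · have hcore : Core R (m + 1) (t + 1) S W := by
        refine ⟨by omega, ?_, ?_⟩
        · intro y hy
          have hyS := hleaf y ((hWmem y).1 hy).1 ((hWmem y).1 hy).2
          have : S.filter (fun x => R x y) = S := by
            apply Finset.filter_true_of_mem
            intro x hx
            rw [← hyS] at hx
            exact (Finset.mem_filter.1 hx).2
          rw [this, hS]
        · intro x hx
          have : W.filter (fun y => R x y) = W := by
            apply Finset.filter_true_of_mem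
            intro y hy
            have hyS := hleaf y ((hWmem y).1 hy).1 ((hWmem y).1 hy).2
            rw [← hyS] at hx
            exact (Finset.mem_filter.1 hx).2
          rw [this]
          have : ((m + 1 : ℕ) : ℤ) ≤ (W.card : ℤ) := by push_cast; linarith
          exact_mod_cast this
      have h5 := hp_all (Good R (m + 1) (t + 1)) (B := W)
        (fun u hu v hv => ⟨S, W, hcore, hu, hv⟩)
      rw [h5, ← hw]
      obtain ⟨s, hs⟩ : ∃ s : ℤ, s = w - 2 * m := ⟨_, rfl⟩
      have hs1 : 1 ≤ s := by rw [hs]; linarith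
      have hws : w = 2 * m + s := by rw [hs]; ring
      rw [hws]
      exact num1 hm1 hs1
  unfold Pot at h ⊢
  rw [e1, e2, e3, ← hw]
  push_cast
  rw [← hw]
  have ht2 : (2 : ℤ) * (t + 1) = m + 1 := by linarith
  have key : 2 * (2 * (m:ℤ) + 1) ^ 2 * (w * (t + 1)) = (2 * m + 1) ^ 2 * ((m + 1) * w) := by
    rw [← ht2]; ring
  linarith

theorem exists_max {G : α → β → Prop} {m : ℕ} (h1 : Mix G 1) (hno : ¬ Mix G (m + 1)) :
    ∃ p, p ≤ m ∧ Mix G p ∧ ¬ Mix G (p + 1) := by
  by_contra hcon
  push Not at hcon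
  have : ∀ q, q ≤ m → Mix G (q + 1) := by
    intro q
    induction q with
    | zero => intro _; exact h1
    | succ q ih => intro hq; exact hcon (q + 1) hq (ih (by omega))
  exact hno (this m le_rfl)

open scoped Classical in
theorem pot {R : α → β → Prop} {m t : ℕ} (hm : 1 ≤ m) (ht : 2 * t ≤ m) (ht' : m ≤ 2 * t + 1)
    (hno : ¬ Mix R (m + 1)) : ∀ (n : ℕ) (A : Finset α) (B : Finset β), A.card + B.card ≤ n →
      Pot R m t A B := by
  intro n
  induction n with
  | zero =>
    intro A B hn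
    exact pot_small R ht A B (by omega)
  | succ n ih =>
    intro A B hn
    by_cases cA : A.card ≤ m
    · exact pot_small R ht A B cA
    by_cases cB : B.card ≤ m
    · exact (pot_small (fun y x => R x y) ht B A cB).flip
    by_cases c1 : ∃ y ∈ B, (A.filter (fun x => R x y)).card ≤ t
    · obtain ⟨y, hy, hdy⟩ := c1
      have := Finset.card_erase_add_one hy
      exact pot_erase_y ht hy hdy (ih A (B.erase y) (by omega))
    by_cases c2 : ∃ x ∈ A, (B.filter (fun y => R x y)).card ≤ t
    · obtain ⟨x, hx, hdx⟩ := c2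
      have := Finset.card_erase_add_one hx
      refine Pot.flip (pot_erase_y (R := fun y x => R x y) ht hx hdx ?_)
      exact Pot.flip (R := fun y x => R x y) (ih (A.erase x) B (by omega))
    by_cases c3 : ∃ A1 ⊆ A, ∃ B1 ⊆ B, (∀ x ∈ A, ∀ y ∈ B, R x y → (x ∈ A1 ↔ y ∈ B1)) ∧
        (A1.Nonempty ∨ B1.Nonempty) ∧ ¬ (A1 = A ∧ B1 = B)
    · obtain ⟨A1, hA1, B1, hB1, hc, hne, hne'⟩ := c3
      have e1 := Finset.card_sdiff_add_card_eq_card hA1
      have e2 := Finset.card_sdiff_add_card_eq_card hB1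
      have e3 : 0 < A1.card + B1.card := by
        rcases hne with h | h
        · have := Finset.card_pos.2 h; omega
        · have := Finset.card_pos.2 h; omega
      have e4 : 0 < (A \ A1).card + (B \ B1).card := by
        by_contra hcon
        apply hne'
        constructor
        · apply Finset.Subset.antisymm hA1
          rw [← Finset.sdiff_eq_empty_iff_subset, ← Finset.card_eq_zero]; omega
        · apply Finset.Subset.antisymm hB1
          rw [← Finset.sdiff_eq_empty_iff_subset, ← Finset.card_eq_zero]; omega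
      exact pot_cut hA1 hB1 hc (ih _ _ (by omega)) (ih _ _ (by omega))
    push Not at c1 c2 c3
    obtain ⟨G, hG⟩ : ∃ G : α → β → Prop, G = fun x y => x ∈ A ∧ y ∈ B ∧ R x y := ⟨_, rfl⟩
    have hGm : ∀ x y, G x y ↔ x ∈ A ∧ y ∈ B ∧ R x y := by intro x y; rw [hG]
    have hGR : ∀ x y, G x y → R x y := fun x y h => ((hGm x y).1 h).2.2
    have fA : ∀ y ∈ B, A.filter (fun x => G x y) = A.filter (fun x => R x y) := by
      intro y hy
      apply Finset.filter_congr
      intro x hx
      rw [hGm]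
      tauto
    have fB : ∀ x ∈ A, B.filter (fun y => G x y) = B.filter (fun y => R x y) := by
      intro x hx
      apply Finset.filter_congr
      intro y hy
      rw [hGm]
      tauto
    have hconn : Conn G (t + 1) A B := by
      refine ⟨fun x y h => ⟨((hGm x y).1 h).1, ((hGm x y).1 h).2.1⟩, ?_, ?_, ?_⟩
      · intro x hx
        rw [fB x hx]; exact c2 x hx
      · intro y hy
        rw [fA y hy]; exact c1 y hy
      · intro A1 hA1 B1 hB1 hc hne
        exact c3 A1 hA1 B1 hB1 (fun x hx y hy hxy => hc x y ((hGm x y).2 ⟨hx, hy, hxy⟩)) hne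
    have mixmono : ∀ p, Mix G p → Mix R p := by
      rintro p ⟨a, b, xs, ys, y, h1, h2, h3, h4⟩
      exact ⟨a, b, xs, ys, y, h1.mono hGR, h2, hGR _ _ h3, h4⟩
    have hmix1 : Mix G 1 := by
      obtain ⟨a, ha⟩ := Finset.card_pos.1 (by omega : 0 < A.card)
      have h1 := hconn.degA a ha
      obtain ⟨y, hy⟩ := Finset.card_pos.1 (by omega : 0 < (B.filter (fun y => G a y)).card)
      exact ⟨a, a, [a], [], y, Pth.single a, by simp, (Finset.mem_filter.1 hy).2, rfl⟩
    obtain ⟨p, hp, hp1, hp2⟩ := exists_max hmix1 (fun h => hno (mixmono _ h))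
    obtain ⟨r1, r2⟩ := exotic hconn (by omega) (by omega) (by omega) hp1 hp2
    have hmt : m = 2 * t + 1 := by omega
    rcases r2 with ⟨a, ha, S, hS, hleaf⟩ | ⟨b, hb, S, hS, hleaf⟩
    · refine pot_leaf hm hmt ha hS (fun y hy hay => ?_) (ih _ _ ?_)
      · rw [← fA y hy]
        exact hleaf y ((hGm a y).2 ⟨ha, hy, hay⟩)
      · have e1 := Finset.card_erase_add_one ha
        have e2 := Finset.card_le_card (Finset.sdiff_subset :
          B \ B.filter (fun y => R a y) ⊆ B)
        omega
    · refine Pot.flip (pot_leaf (R := fun y x => R x y) hm hmt hb hS (fun x hx hbx => ?_)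
        (Pot.flip (R := fun y x => R x y) (ih _ _ ?_)))
      · rw [← fB x hx]
        exact hleaf x ((hGm x b).2 ⟨hx, hb, hbx⟩)
      · have e1 := Finset.card_erase_add_one hb
        have e2 := Finset.card_le_card (Finset.sdiff_subset :
          A \ A.filter (fun x => R x b) ⊆ A)
        omega

end Pool.Agent.MP_52ca01_co
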