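import Pool.Agent.Lib.MP_52ca01_co.Attempt

/-!
Counting edges; the pruning inequality when one side is small.
-/

set_option autoImplicit false
set_option linter.unusedSectionVars false

namespace Pool.Agent.MP_52ca01_co

open Finset

variable {α β : Type*} [DecidableEq α] [DecidableEq β]

open scoped Classical in
/-- Number of edges between `A` and `B`. -/
noncomputable def edg (R : α → β → Prop) (A : Finset α) (B : Finset β) : ℕ :=
  ∑ y ∈ B, (A.filter (fun x => R x y)).card

open scoped Classical in
theorem edg_eq (R : α → β → Prop) (A : Finset α) (B : Finset β) :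
    edg R A B = ∑ x ∈ A, (B.filter (fun y => R x y)).card :=
  (Finset.sum_card_bipartiteAbove_eq_sum_card_bipartiteBelow R).symm

theorem edg_flip (R : α → β → Prop) (A : Finset α) (B : Finset β) :
    edg (fun y x => R x y) B A = edg R A B := by
  classical
  rw [edg_eq R A B]
  unfold edg
  refine Finset.sum_congr rfl fun x _ => ?_
  congr

open scoped Classical in
theorem edg_erase_y (R : α → β → Prop) (A : Finset α) {B : Finset β} {y : β} (hy : y ∈ B) :
    edg R A B = edg R A (B.erase y) + (A.filter (fun x => R x y)).card :=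
  (Finset.sum_erase_add B _ hy).symm

open scoped Classical in
theorem edg_erase_x (R : α → β → Prop) {A : Finset α} (B : Finset β) {x : α} (hx : x ∈ A) :
    edg R A B = edg R (A.erase x) B + (B.filter (fun y => R x y)).card := by
  rw [edg_eq, edg_eq]
  exact (Finset.sum_erase_add A _ hx).symm

theorem edg_le (R : α → β → Prop) (A : Finset α) (B : Finset β) :
    edg R A B ≤ B.card * A.card := by
  classical
  unfold edg
  calc ∑ y ∈ B, (A.filter (fun x => R x y)).card ≤ ∑ y ∈ B, A.card :=
        Finset.sum_le_sum fun y _ => Finset.card_filter_le _ _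
    _ = B.card * A.card := by rw [Finset.sum_const, smul_eq_mul]

/-- Two vertices in a common core. -/
def Good (R : α → β → Prop) (k d : ℕ) (u v : β) : Prop :=
  ∃ A B, Core R k d A B ∧ u ∈ B ∧ v ∈ B

open scoped Classical in
/-- Number of ordered pairs of distinct elements of `B` satisfying `P`. -/
noncomputable def hp (P : β → β → Prop) (B : Finset β) : ℕ :=
  (B.offDiag.filter (fun p => P p.1 p.2)).card

theorem hp_mono (P : β → β → Prop) {B B' : Finset β} (h : B ⊆ B') : hp P B ≤ hp P B' := by
  classical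
  apply Finset.card_le_card
  exact Finset.filter_subset_filter _ (Finset.offDiag_mono h)

theorem hp_disj (P : β → β → Prop) {B B1 B2 : Finset β} (h1 : B1 ⊆ B) (h2 : B2 ⊆ B)
    (hd : Disjoint B1 B2) : hp P B1 + hp P B2 ≤ hp P B := by
  classical
  unfold hp
  rw [← Finset.card_union_of_disjoint]
  · apply Finset.card_le_card
    apply Finset.union_subset
    · exact Finset.filter_subset_filter _ (Finset.offDiag_mono h1)
    · exact Finset.filter_subset_filter _ (Finset.offDiag_mono h2)
  · rw [Finset.disjoint_left]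
    intro p hp hp'
    rw [Finset.mem_filter, Finset.mem_offDiag] at hp hp'
    exact (Finset.disjoint_left.1 hd) hp.1.1 hp'.1.1

theorem hp_all (P : β → β → Prop) {B : Finset β} (h : ∀ u ∈ B, ∀ v ∈ B, P u v) :
    (hp P B : ℤ) = B.card * (B.card - 1) := by
  classical
  unfold hp
  have : B.offDiag.filter (fun p => P p.1 p.2) = B.offDiag := by
    apply Finset.filter_true_of_mem
    intro p hp
    rw [Finset.mem_offDiag] at hp
    exact h _ hp.1 _ hp.2.1
  rw [this, Finset.offDiag_card]
  have : B.card ≤ B.card * B.card := Nat.le_mul_self _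
  push_cast [this]
  ring

open scoped Classical in
/-- Pruning. -/
theorem prune (R : α → β → Prop) {m t : ℕ} (ht : 2 * t ≤ m) :
    ∀ (n : ℕ) (A : Finset α) (B : Finset β), A.card + B.card ≤ n → A.card ≤ m →
      edg R A B ≤ t * B.card + (A.card - t) * m ∨
      ∃ A0 B0, A0 ⊆ A ∧ B0 ⊆ B ∧ Core R (m + 1) (t + 1) A0 B0 ∧
        2 * (2 * m + 1 : ℤ) ^ 2 * edg R A B + 2 * (m : ℤ) ^ 2 * (2 * m + 1) * (m - A.card) ≤
          2 * m * (m + 1) * (2 * m + 1) * (A.card + B.card) +
            (m : ℤ) ^ 2 * (B0.card * (B0.card - 1)) := by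
  intro n
  induction n with
  | zero =>
    intro A B hn _
    left
    have h1 := edg_le R A B
    have h2 : B.card = 0 := by omega
    rw [h2] at h1
    simp at h1
    omega
  | succ n ih =>
    intro A B hn hA
    by_cases c1 : ∃ y ∈ B, (A.filter (fun x => R x y)).card ≤ t
    · obtain ⟨y, hy, hdy⟩ := c1
      have e1 := edg_erase_y R A hy
      have e2 := Finset.card_erase_add_one hy
      rcases ih A (B.erase y) (by omega) hA with h | ⟨A0, B0, h1, h2, h3, h4⟩
      · left
        rw [e1, ← e2, Nat.mul_add]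
        omega
      · right
        refine ⟨A0, B0, h1, h2.trans (Finset.erase_subset _ _), h3, ?_⟩
        have e3 : (edg R A B : ℤ) ≤ edg R A (B.erase y) + t := by
          rw [e1]; push_cast; exact_mod_cast Nat.add_le_add_left hdy _
        have e4 : (B.card : ℤ) = (B.erase y).card + 1 := by exact_mod_cast e2.symm
        have e5 : 2 * (2 * m + 1 : ℤ) ^ 2 * edg R A B ≤
          2 * (2 * m + 1 : ℤ) ^ 2 * edg R A (B.erase y) + (2 * m + 1 : ℤ) ^ 2 * (2 * t) := by
          nlinarith [mul_le_mul_of_nonneg_left e3 (by positivity : (0:ℤ) ≤ 2 * (2 * m + 1 : ℤ) ^ 2)]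
        have e6 : (2 * m + 1 : ℤ) ^ 2 * (2 * t) ≤ 2 * m * (m + 1) * (2 * m + 1) := by
          have h7 : (2 * t : ℤ) ≤ m := by exact_mod_cast ht
          have h8 := mul_le_mul_of_nonneg_left h7 (by positivity : (0:ℤ) ≤ (2 * m + 1 : ℤ) ^ 2)
          have h9 : (0:ℤ) ≤ m := by positivity
          nlinarith
        rw [e4]
        linarith
    by_cases c2 : A.card ≤ t
    · left
      have h1 := edg_le R A B
      have h2 := Nat.mul_le_mul_left B.card c2
      rw [Nat.mul_comm] at h2
      have h3 : t * B.card = B.card * t := Nat.mul_comm _ _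
      have h4 : A.card * B.card = B.card * A.card := Nat.mul_comm _ _
      omega
    by_cases c3 : ∃ x ∈ A, (B.filter (fun y => R x y)).card ≤ m
    · obtain ⟨x, hx, hdx⟩ := c3
      have e1 := edg_erase_x R B hx
      have e2 := Finset.card_erase_add_one hx
      rcases ih (A.erase x) B (by omega) (by omega) with h | ⟨A0, B0, h1, h2, h3, h4⟩
      · left
        rw [e1]
        have e3 : A.card - t = ((A.erase x).card - t) + 1 := by omega
        rw [e3, Nat.add_mul, Nat.one_mul]
        omega
      · right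
        refine ⟨A0, B0, h1.trans (Finset.erase_subset _ _), h2, h3, ?_⟩
        have e3 : (edg R A B : ℤ) ≤ edg R (A.erase x) B + m := by
          rw [e1]; push_cast; exact_mod_cast Nat.add_le_add_left hdx _
        have e4 : (A.card : ℤ) = (A.erase x).card + 1 := by exact_mod_cast e2.symm
        have e5 := mul_le_mul_of_nonneg_left e3
          (by positivity : (0:ℤ) ≤ 2 * (2 * m + 1 : ℤ) ^ 2)
        rw [e4]
        nlinarith
    push Not at c1 c3
    by_cases c4 : B = ∅
    · left
      subst c4
      simp [edg]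
    right
    have hApos : 0 < A.card := by omega
    obtain ⟨x, hx⟩ := Finset.card_pos.1 hApos
    have hb : m + 1 ≤ B.card := (c3 x hx).trans_le (Finset.card_filter_le _ _)
    refine ⟨A, B, subset_rfl, subset_rfl, ⟨by omega, fun y hy => c1 y hy, fun x hx => c3 x hx⟩, ?_⟩
    have e1 : (edg R A B : ℤ) ≤ B.card * A.card := by exact_mod_cast edg_le R A B
    have e2 := mul_le_mul_of_nonneg_left e1 (by positivity : (0:ℤ) ≤ 2 * (2 * m + 1 : ℤ) ^ 2)
    obtain ⟨s, hs⟩ : ∃ s : ℤ, s = m - A.card := ⟨_, rfl⟩
    have hs0 : 0 ≤ s := by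
      have h1 : (A.card : ℤ) ≤ m := by exact_mod_cast hA
      rw [hs]; linarith
    have ha : (A.card : ℤ) = m - s := by rw [hs]; ring
    have hb' : (m : ℤ) + 1 ≤ B.card := by exact_mod_cast hb
    obtain ⟨b, hbb⟩ : ∃ b : ℤ, b = B.card := ⟨_, rfl⟩
    rw [← hbb] at hb' e2 ⊢
    rw [ha] at e2 ⊢
    have e3 : 0 ≤ (b - 2 * m - 1) * (b - 2 * m - 2) := by
      rcases le_or_gt (b - 2 * m) 1 with h | h
      · nlinarith
      · have : 2 ≤ b - 2 * m := h
        nlinarith
    have e4 : 0 ≤ (m : ℤ) ^ 2 * ((b - 2 * m - 1) * (b - 2 * m - 2)) := mul_nonneg (by positivity) e3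
    have e5 : 0 ≤ 2 * s * (2 * m + 1 : ℤ) ^ 2 * (b - m) :=
      mul_nonneg (by positivity) (by linarith)
    nlinarith

end Pool.Agent.MP_52ca01_co
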