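import Pool.Agent.Lib.MP_52ca01_co.Lk

/-!
Paths and cycles with distinct vertices, and operations on them.
-/

set_option autoImplicit false

namespace Pool.Agent.MP_52ca01_co

open Finset

variable {α β : Type*}

/-- An alternating path with distinct vertices, both ends of the first kind. -/
structure Pth (R : α → β → Prop) (a b : α) (xs : List α) (ys : List β) : Prop where
  lk : Lk R a b xs ys
  nx : xs.Nodup
  ny : ys.Nodup

/-- A cycle: a path together with one more vertex `z` joining its ends. -/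
structure Cyc (R : α → β → Prop) (a b : α) (xs : List α) (ys : List β) (z : β) : Prop where
  pth : Pth R a b xs ys
  nz : z ∉ ys
  la : R a z
  lb : R b z

variable {R R' : α → β → Prop} {a b a' b' a1 b1 x : α} {xs xs' xs1 xs2 : List α}
  {ys ys' ys1 ys2 : List β} {y z w : β}

namespace Pth

theorem mono (hR : ∀ x y, R x y → R' x y) (h : Pth R a b xs ys) : Pth R' a b xs ys :=
  ⟨h.lk.mono hR, h.nx, h.ny⟩

theorem single (a : α) : Pth R a a [a] [] := ⟨Lk.single a, by simp, by simp⟩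

theorem reverse (h : Pth R a b xs ys) : Pth R b a xs.reverse ys.reverse :=
  ⟨h.lk.reverse, List.nodup_reverse.2 h.nx, List.nodup_reverse.2 h.ny⟩

theorem cons (h : Pth R a b xs ys) (hx : x ∉ xs) (hy : y ∉ ys) (h1 : R x y) (h2 : R a y) :
    Pth R x b (x :: xs) (y :: ys) :=
  ⟨Lk.cons y h1 h2 h.lk, List.nodup_cons.2 ⟨hx, h.nx⟩, List.nodup_cons.2 ⟨hy, h.ny⟩⟩

theorem join (h : Pth R a b xs ys) (h' : Pth R a' b' xs' ys') (hx : ∀ x ∈ xs, x ∉ xs')
    (hy : ∀ y ∈ ys, y ∉ ys') (h1 : y ∉ ys) (h2 : y ∉ ys') (g1 : R b y) (g2 : R a' y) :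
    Pth R a b' (xs ++ xs') (ys ++ y :: ys') := by
  refine ⟨h.lk.append g1 g2 h'.lk, ?_, ?_⟩
  · rw [List.nodup_append]
    exact ⟨h.nx, h'.nx, fun x hx1 y hy1 hxy => hx x hx1 (hxy ▸ hy1)⟩
  · rw [List.nodup_middle, List.nodup_cons, List.nodup_append]
    exact ⟨by simp [h1, h2], h.ny, h'.ny, fun x hx1 y hy1 hxy => hy x hx1 (hxy ▸ hy1)⟩

/-- Splitting a path. -/
theorem of_split (hx : (xs1 ++ xs2).Nodup) (hy : (ys1 ++ w :: ys2).Nodup)
    (h1 : Lk R a a1 xs1 ys1) (h2 : Lk R b1 b xs2 ys2) :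
    Pth R a a1 xs1 ys1 ∧ Pth R b1 b xs2 ys2 ∧ (∀ x ∈ xs1, x ∉ xs2) ∧ (∀ y ∈ ys1, y ∉ ys2) ∧
      w ∉ ys1 ∧ w ∉ ys2 := by
  rw [List.nodup_append] at hx
  rw [List.nodup_middle, List.nodup_cons, List.nodup_append] at hy
  refine ⟨⟨h1, hx.1, hy.2.1⟩, ⟨h2, hx.2.1, hy.2.2.1⟩, fun x h h' => hx.2.2 x h x h' rfl,
    fun y h h' => hy.2.2.2 y h y h' rfl, fun h => hy.1 (List.mem_append_left _ h),
    fun h => hy.1 (List.mem_append_right _ h)⟩

/-- The rotation at the left end: `y` is a neighbour of the left end `a` and of `b1`, where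
`a … a1 w b1 … b` is the path. -/
theorem rotL (hx : (xs1 ++ xs2).Nodup) (hy : (ys1 ++ w :: ys2).Nodup)
    (h1 : Lk R a a1 xs1 ys1) (h2 : Lk R b1 b xs2 ys2)
    (hyn : y ∉ ys1 ++ ys2) (ha : R a y) (hb : R b1 y) :
    Pth R a1 b (xs1.reverse ++ xs2) (ys1.reverse ++ y :: ys2) := by
  obtain ⟨p1, p2, dx, dy, -, -⟩ := of_split hx hy h1 h2
  refine p1.reverse.join p2 (fun x h => dx x (List.mem_reverse.1 h))
    (fun y h => dy y (List.mem_reverse.1 h)) ?_ ?_ ha hb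
  · exact fun h => hyn (List.mem_append_left _ (List.mem_reverse.1 h))
  · exact fun h => hyn (List.mem_append_right _ h)

theorem length_eq (h : Pth R a b xs ys) : xs.length = ys.length + 1 := h.lk.length_eq

end Pth

namespace Cyc

theorem reverse (h : Cyc R a b xs ys z) : Cyc R b a xs.reverse ys.reverse z :=
  ⟨h.pth.reverse, fun hh => h.nz (List.mem_reverse.1 hh), h.lb, h.la⟩

theorem of_split (hx : (xs1 ++ xs2).Nodup) (hy : (ys1 ++ w :: ys2).Nodup)
    (h1 : Lk R a a1 xs1 ys1) (h2 : Lk R b1 b xs2 ys2)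
    (hz : z ∉ ys1 ++ w :: ys2) (ha : R a z) (hb : R b z) (g1 : R a1 w) (g2 : R b1 w) :
    Cyc R b1 a1 (xs2 ++ xs1) (ys2 ++ z :: ys1) w := by
  obtain ⟨p1, p2, dx, dy, w1, w2⟩ := Pth.of_split hx hy h1 h2
  have hz' : z ∉ ys1 ∧ z ≠ w ∧ z ∉ ys2 := by
    simp only [List.mem_append, List.mem_cons, not_or] at hz
    exact hz
  refine ⟨p2.join p1 (fun x h h' => dx x h' h) (fun y h h' => dy y h' h) hz'.2.2 hz'.1 hb ha,
    ?_, g2, g1⟩
  simp only [List.mem_append, List.mem_cons, not_or]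
  exact ⟨w2, fun h => hz'.2.1 h.symm, w1⟩

/-- Rotate a cycle such that a given vertex of the second kind is the closing one. -/
theorem rot_y (h : Cyc R a b xs ys z) (hy : y ∈ ys) :
    ∃ a' b' xs' ys', Cyc R a' b' xs' ys' y ∧ (∀ x, x ∈ xs' ↔ x ∈ xs) ∧
      (∀ y', y' ∈ y :: ys' ↔ y' ∈ z :: ys) ∧ xs'.length = xs.length := by
  obtain ⟨a1, b1, xs1, xs2, ys1, ys2, e1, e2, g1, g2, g3, g4⟩ := h.pth.lk.split_mem hy
  have hnx := h.pth.nx
  have hny := h.pth.ny
  have hnz := h.nz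
  subst e1 e2
  refine ⟨b1, a1, xs2 ++ xs1, ys2 ++ z :: ys1,
    of_split hnx hny g1 g4 hnz h.la h.lb g2 g3, fun x => ?_, fun y' => ?_, ?_⟩
  · simp only [List.mem_append]; tauto
  · simp only [List.mem_append, List.mem_cons]; tauto
  · simp only [List.length_append]; omega

/-- Rotate a cycle such that a given vertex of the first kind is the first one. -/
theorem rot_x (h : Cyc R a b xs ys z) (hx : x ∈ xs) :
    ∃ b' xs' ys' z', Cyc R x b' xs' ys' z' ∧ (∀ x, x ∈ xs' ↔ x ∈ xs) ∧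
      (∀ y', y' ∈ z' :: ys' ↔ y' ∈ z :: ys) ∧ xs'.length = xs.length := by
  by_cases hxa : x = a
  · subst hxa
    exact ⟨b, xs, ys, z, h, fun _ => Iff.rfl, fun _ => Iff.rfl, rfl⟩
  · obtain ⟨a1, w, xs1, xs2, ys1, ys2, e1, e2, g1, g2, g3, g4⟩ :=
      h.pth.lk.split_mem_left hx hxa
    have hnx := h.pth.nx
    have hny := h.pth.ny
    have hnz := h.nz
    subst e1 e2
    refine ⟨a1, xs2 ++ xs1, ys2 ++ z :: ys1, w,
      of_split hnx hny g1 g4 hnz h.la h.lb g2 g3, fun x => ?_, fun y' => ?_, ?_⟩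
    · simp only [List.mem_append]; tauto
    · simp only [List.mem_append, List.mem_cons]; tauto
    · simp only [List.length_append]; omega

/-- Rotate to any vertex of the second kind on the cycle. -/
theorem rot_y' (h : Cyc R a b xs ys z) (hy : y ∈ z :: ys) :
    ∃ a' b' xs' ys', Cyc R a' b' xs' ys' y ∧ (∀ x, x ∈ xs' ↔ x ∈ xs) ∧
      (∀ y', y' ∈ y :: ys' ↔ y' ∈ z :: ys) ∧ xs'.length = xs.length := by
  rcases List.mem_cons.1 hy with rfl | hy
  · exact ⟨a, b, xs, ys, h, fun _ => Iff.rfl, fun _ => Iff.rfl, rfl⟩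
  · exact h.rot_y hy

end Cyc

end Pool.Agent.MP_52ca01_co
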